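import Pool.Agent.H896.IR.Adj

/-!
# Real coefficients
-/

set_option autoImplicit false

namespace Pool.Agent.H896.IG

open MvPolynomial Pool.Agent.T2H08.FB Pool.Agent.W594.SYZ2 Pool.Agent.W594.SYZ2.TQ
  Pool.Agent.TH735.AQ
open Pool.Agent.T2H08 Pool.Agent.H896.IQ

variable {n c : ℕ} {r : Fin c → ℕ} {Γ : Subgroup (Trans n r)}

variable {K : LineBundle Γ} {N : ℕ} {D : Fin N → LineBundle Γ}
  {HK : (Fin n → ℂ) → (Fin n → ℂ) → ℂ} {HD : Fin N → (Fin n → ℂ) → (Fin n → ℂ) → ℂ}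
  {ρ : (Fin n → ℂ) → ℂ} {σ : MvPolynomial (Co r) ℂ} {l : Fin c → ℕ} {m : ℕ}
  {β : Fin N → (Fin n → ℂ) → MvPolynomial (Co r) ℂ} {κ : Fin N → Fin c → ℕ}

/-- The integral tests. -/
theorem exists_int_tests (hΓ : IsIsometryGroup Γ) (hρ : IsRamification Γ ρ σ l)
    (hK : IsLogPluricanonical K m ρ σ l (fun _ => 1) (fun _ => 0)) (hHK : K.IsChernForm HK)
    (hβ : ∀ i, IsCartier (D i) (β i) (κ i)) (hHD : ∀ i, (D i).IsChernForm (HD i)) :
    ∃ (J : Type) (_ : Finite J) (k : J → ℤ) (x : J → Fin N → ℤ), ∀ (s : ℝ) (d : Fin N → ℝ),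
      (∀ i, 0 ≤ d i) →
        (IsNefForm (Q47.MM.cls HK HD s d) ↔ ∀ j, 0 ≤ s * k j + ∑ i, d i * x j i) := by
  obtain ⟨G, hG, hres, hfix⟩ := exists_restriction hΓ hρ
  have := finite_Lin hG
  obtain ⟨u, w, hu, hw, ht⟩ := Q47.MM.exists_tests hG
  have hinv : ∀ (L : LineBundle Γ) (H : (Fin n → ℂ) → (Fin n → ℂ) → ℂ), L.IsChernForm H →
      Q47.MM.Inv G H := fun L H hc => by
    obtain ⟨L', hL'⟩ := hres L H hc
    exact Q47.MM.inv_of_chern hL'
  have hint : ∀ (L : LineBundle Γ) (H : (Fin n → ℂ) → (Fin n → ℂ) → ℂ), L.IsChernForm H →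
      ∀ g : Q47.MM.Refls G, ∃ n : ℤ, (H (u g) (w g)).im = n := by
    intro L H hc g
    obtain ⟨L', hH, F, hF, hFe⟩ := hres L H hc
    exact im_int hH ⟨hF, hFe⟩ (hu g) (hw g)
  choose k hk using hint K HK hHK
  choose x hx using fun g i => hint (D i) (HD i) (hHD i) g
  refine ⟨Q47.MM.Refls G, inferInstance, k, x, fun s d hd => ?_⟩
  have hI := Q47.MM.cls_inv (hinv K HK hHK) (fun i => hinv (D i) (HD i) (hHD i)) s d
  have h1 : IsNefForm (Q47.MM.cls HK HD s d) ↔
      ∀ a ∈ Q47.MM.roots G, 0 ≤ (Q47.MM.cls HK HD s d a a).re := by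
    refine ⟨fun h a _ => h a, fun h => Q47.MM.nef_of_roots hG hI (fun x hx => ?_) h⟩
    rw [Q47.MM.cls_re, hfix K HK m hK hHK x hx, mul_zero, zero_add]
    exact Finset.sum_nonneg fun i _ => mul_nonneg (hd i) (nef_of_cartier hΓ (hβ i) (hHD i) x)
  have h2 : ∀ g, (Q47.MM.cls HK HD s d (u g) (w g)).im = s * k g + ∑ i, d i * x g i := by
    intro g
    rw [Q47.MM.cls_im, hk]
    congr 1
    exact Finset.sum_congr rfl fun i _ => by rw [hx]
  rw [h1, ht _ hI.herm]
  exact forall_congr' fun g => by rw [h2]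

/-- klt in other coordinates -/
theorem klt_chg {P : (Co r → ℂ) ≃ₗ[ℂ] (Co r → ℂ)} (hP : BU (lm P)) {d : Fin N → ℝ}
    (h : IR.KltR ρ σ d β) : IR.KltR ρ (sub P σ) d (fun i v => sub P (β i v)) := by
  intro x hx
  let Φ : ((Fin n → ℂ) × (Co r → ℂ)) ≃ₗ[ℝ] ((Fin n → ℂ) × (Co r → ℂ)) :=
    ((LinearEquiv.refl ℂ (Fin n → ℂ)).prodCongr P).restrictScalars ℝ
  have hΦ : ∀ p, Φ p = (p.1, P p.2) := fun p => rfl
  have hcont : Continuous Φ := LinearMap.continuous_of_finiteDimensional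
    (Φ : ((Fin n → ℂ) × (Co r → ℂ)) →ₗ[ℝ] ((Fin n → ℂ) × (Co r → ℂ)))
  have hx' : FQ.IsPt (P x.2) := hP.isPt hx
  obtain ⟨U, hU, hint⟩ := h (Φ x) hx'
  refine ⟨Φ ⁻¹' U, ?_, ?_⟩
  · have h1 : Filter.Tendsto Φ (nhdsWithin x {p | FQ.IsPt p.2})
        (nhdsWithin (Φ x) {p | FQ.IsPt p.2}) := by
      refine hcont.continuousAt.continuousWithinAt.tendsto_nhdsWithin ?_
      intro p hp
      exact hP.isPt hp
    exact h1 hU
  · have hemb : MeasurableEmbedding Φ :=
      (Φ.toContinuousLinearEquiv.toHomeomorph.measurableEmbedding)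
    have hmap : MeasureTheory.Measure.map Φ
        (MeasureTheory.volume : MeasureTheory.Measure ((Fin n → ℂ) × (Co r → ℂ))) =
        ENNReal.ofReal |(LinearMap.det (Φ : ((Fin n → ℂ) × (Co r → ℂ)) →ₗ[ℝ]
          ((Fin n → ℂ) × (Co r → ℂ))))⁻¹| •
          (MeasureTheory.volume : MeasureTheory.Measure ((Fin n → ℂ) × (Co r → ℂ))) := by
      have : (MeasureTheory.volume : MeasureTheory.Measure
          ((Fin n → ℂ) × (Co r → ℂ))).IsAddHaarMeasure :=
        MeasureTheory.Measure.prod.instIsAddHaarMeasure _ _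
      exact MeasureTheory.Measure.map_linearMap_addHaar_eq_smul_addHaar _
        (LinearEquiv.isUnit_det' Φ).ne_zero
    have h2 : MeasureTheory.IntegrableOn (fun p : (Fin n → ℂ) × (Co r → ℂ) =>
        ‖ρ p.1 * eval p.2 σ‖ ^ 2 * ∏ i, ‖eval p.2 (β i p.1)‖ ^ (-(2 * d i))) U
        (MeasureTheory.Measure.map Φ MeasureTheory.volume) := by
      rw [hmap]
      unfold MeasureTheory.IntegrableOn
      rw [MeasureTheory.Measure.restrict_smul]
      exact hint.smul_measure ENNReal.ofReal_ne_top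
    rw [hemb.integrableOn_map_iff] at h2
    refine h2.congr_fun_ae ?_
    refine Filter.Eventually.of_forall fun p => ?_
    change ‖ρ p.1 * eval (P p.2) σ‖ ^ 2 * ∏ i, ‖eval (P p.2) (β i p.1)‖ ^ (-(2 * d i)) =
      ‖ρ p.1 * eval p.2 (sub P σ)‖ ^ 2 * ∏ i, ‖eval p.2 (sub P (β i p.1))‖ ^ (-(2 * d i))
    rw [eval_sub]
    congr 1
    exact Finset.prod_congr rfl fun i _ => by rw [eval_sub]

/-- A klt pair with nonnegative degrees is rigid. -/
theorem rigid_of_klt (hρ : IsRamification Γ ρ σ l) (hβ : ∀ i, IsEffective (β i) (κ i))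
    {d : Fin N → ℝ} (hklt : IsKltReal ρ σ d β)
    (hk : ∀ j, (l j : ℝ) + (r j + 1) ≤ ∑ i, d i * κ i j) {b : Fin N → ℕ} (hb : ∀ i, 1 ≤ b i) :
    IR.Rigid σ (fun v => ∏ i, β i v ^ b i) := by
  intro P hP w W W' hW' hW j i i'
  have hβ' : ∀ i, FQ.IsEffective (fun v => sub P (β i v)) (κ i) := fun i =>
    IR.eff_chg hP (eff_conv (hβ i))
  have h1 : ∀ i, ∃ W' : ℕ, ∀ v, ∀ I ∈ (sub P (β i v)).support, IR.wt w I = W' := by
    refine IR.iso_factor hβ' hb (W := W) fun v I hI => hW v I ?_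
    rw [map_prod]
    simp only [map_pow]
    exact hI
  choose Wi hWi using h1
  have h2 := IR.weight_const (n := n) (ρ := ρ) (σ := sub P σ) (d := d) hρ.holo hβ'
    (isHomog_sub hP (homog_conv hρ.homog)) hρ.rho_ne_zero (sub_ne_zero hρ.ne_zero)
    (klt_chg hP hklt) hk (w := fun s => (w s : ℝ)) (W := fun i => (Wi i : ℝ)) (W' := (W' : ℝ))
    (fun J hJ => by
      have h3 := hW' J hJ
      unfold IR.wt at h3
      exact_mod_cast h3)
    (fun i v I hI => by
      have h3 := hWi i v I hI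
      unfold IR.wt at h3
      exact_mod_cast h3) j i i'
  exact_mod_cast h2

/-- **Base point freeness for real coefficients.** -/
theorem semiample_real (hΓ : IsIsometryGroup Γ) (hρ : IsRamification Γ ρ σ l) (hm : 1 ≤ m)
    (hK : IsLogPluricanonical K m ρ σ l (fun _ => 1) (fun _ => 0)) (hHK : K.IsChernForm HK)
    (hβ : ∀ i, IsCartier (D i) (β i) (κ i)) (hHD : ∀ i, (D i).IsChernForm (HD i))
    {d : Fin N → ℝ} (hd : ∀ i, 0 < d i) (hklt : IsKltReal ρ σ d β)
    (hn : IsNefClass (realClass K HK D HD (1 / m) d)) : IsSemiampleReal K D (1 / m) d := by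
  obtain ⟨hnf, hnd⟩ := hn
  have hm0 : (0 : ℝ) < m := by exact_mod_cast hm
  have hs : (0 : ℝ) < 1 / m := by positivity
  obtain ⟨J, hJ, kk, xx, htest⟩ := exists_int_tests hΓ hρ hK hHK hβ hHD
  let nn : Fin (N + 1) ⊕ (J ⊕ Fin c) → Fin (N + 1) → ℤ :=
    Sum.elim (fun i j => if i = j then 1 else 0)
      (Sum.elim (fun j => Fin.cons (kk j) fun i => xx j i)
        (fun j => Fin.cons (K.deg j) fun i => (D i).deg j))
  let x : Fin (N + 1) → ℝ := Fin.cons (1 / m) d
  have hl : ∀ (y : Fin (N + 1) → ℝ) (i : Fin (N + 1)),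
      ∑ j, (nn (Sum.inl i) j : ℝ) * y j = y i := by
    intro y i
    simp [nn]
  have hr : ∀ (y : Fin (N + 1) → ℝ) (j : J), ∑ i, (nn (Sum.inr (Sum.inl j)) i : ℝ) * y i
      = y 0 * kk j + ∑ i, y (Fin.succ i) * xx j i := by
    intro y j
    rw [Fin.sum_univ_succ]
    simp only [nn, Sum.elim_inr, Sum.elim_inl, Fin.cons_zero, Fin.cons_succ]
    rw [mul_comm]
    congr 1
    exact Finset.sum_congr rfl fun i _ => mul_comm _ _
  have hr2 : ∀ (y : Fin (N + 1) → ℝ) (j : Fin c), ∑ i, (nn (Sum.inr (Sum.inr j)) i : ℝ) * y i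
      = y 0 * K.deg j + ∑ i, y (Fin.succ i) * (D i).deg j := by
    intro y j
    rw [Fin.sum_univ_succ]
    simp only [nn, Sum.elim_inr, Fin.cons_zero, Fin.cons_succ]
    rw [mul_comm]
    congr 1
    exact Finset.sum_congr rfl fun i _ => mul_comm _ _
  have hx0 : ∀ i, 0 < x i := by
    intro i
    refine Fin.cases ?_ (fun i => ?_) i
    · exact hs
    · exact hd i
  obtain ⟨ι, hι, t, b, ht, hsum, hb⟩ := Q47.MM.cone_decomp nn x (by
    rintro (i | j | j)
    · rw [hl]
      exact (hx0 i).le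
    · rw [hr]
      exact (htest _ d fun i => (hd i).le).1 hnf j
    · rw [hr2]
      exact hnd j)
  have hbpos : ∀ k i, 0 < b k i := by
    intro k i
    have h1 := (hb k (Sum.inl i)).2 (by rw [hl]; exact hx0 i)
    simpa [nn] using h1
  have hbR : ∀ k i, (((b k i).toNat : ℕ) : ℝ) = b k i := by
    intro k i
    have := Int.toNat_of_nonneg (hbpos k i).le
    exact_mod_cast this
  have hbZ : ∀ k i, (((b k i).toNat : ℕ) : ℤ) = b k i := by
    intro k i
    exact Int.toNat_of_nonneg (hbpos k i).le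
  have hdeg : ∀ j, (l j : ℝ) + (r j + 1) ≤ ∑ i, d i * κ i j := by
    intro j
    have h1 := hnd j
    have h2 := hK.deg j
    change 0 ≤ 1 / (m : ℝ) * K.deg j + ∑ i, d i * (D i).deg j at h1
    have h3 : (K.deg j : ℝ) = -(m * (l j + (r j + 1))) := by
      have h4 : K.deg j = -((m : ℤ) * (l j + (r j + 1))) := by
        push_cast at h2
        linarith
      rw [h4]
      push_cast
      ring
    have h5 : ∑ i, d i * ((D i).deg j : ℝ) = ∑ i, d i * κ i j :=
      Finset.sum_congr rfl fun i _ => by rw [(hβ i).deg]; push_cast; rfl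
    rw [h3, h5] at h1
    have h6 : 1 / (m : ℝ) * -(m * (l j + (r j + 1))) = -((l j : ℝ) + (r j + 1)) := by
      field_simp
    rw [h6] at h1
    linarith
  refine ⟨ι, hι, t, fun k => (b k 0).toNat, fun k i => (b k i.succ).toNat, ht, fun k => ?_,
    ?_, ?_, fun k => ?_⟩
  · have := hbpos k 0
    change 1 ≤ (b k 0).toNat
    omega
  · have h1 := hsum 0
    change _ = 1 / (m : ℝ) at h1
    rw [← h1]
    exact Finset.sum_congr rfl fun k _ => by rw [hbR]
  · intro i
    have h1 := hsum i.succ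
    change _ = d i at h1
    rw [← h1]
    exact Finset.sum_congr rfl fun k _ => by rw [hbR]
  · refine semiample_of_rigid hΓ hρ
      (IR.eff_prod (fun i => eff_conv (hβ i).effective) (fun i => (b k i.succ).toNat) Finset.univ)
      (plu_adj hK hβ _ _)
      (rigid_of_klt hρ (fun i => (hβ i).effective) hklt hdeg fun i => by
        have := hbpos k i.succ
        omega)
      (chern_adj hHK hHD _ _) ⟨?_, fun j => ?_⟩
    · rw [htest _ _ fun i => Nat.cast_nonneg _]
      intro j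
      have h1 := (hb k (Sum.inr (Sum.inl j))).1
      have h2 : (0 : ℝ) ≤ ∑ i, (nn (Sum.inr (Sum.inl j)) i : ℝ) * (b k i : ℝ) := by
        exact_mod_cast h1
      rw [hr (fun i => (b k i : ℝ)) j] at h2
      simp only [hbR]
      exact h2
    · have h1 := (hb k (Sum.inr (Sum.inr j))).1
      have h2 : (0 : ℝ) ≤ ∑ i, (nn (Sum.inr (Sum.inr j)) i : ℝ) * (b k i : ℝ) := by
        exact_mod_cast h1
      rw [hr2 (fun i => (b k i : ℝ)) j] at h2
      have h3 : (K.adj D (b k 0).toNat fun i => (b k i.succ).toNat).deg j =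
          b k 0 * K.deg j + ∑ i, b k i.succ * (D i).deg j := by
        change (((b k 0).toNat : ℕ) : ℤ) * K.deg j +
          ∑ i, (((b k i.succ).toNat : ℕ) : ℤ) * (D i).deg j = _
        rw [hbZ]
        congr 1
        exact Finset.sum_congr rfl fun i _ => by rw [hbZ]
      rw [h3]
      exact_mod_cast h2

theorem nef_of_eff (hΓ : IsIsometryGroup Γ) {x : RealClass n c} (h : IsEffectiveClass Γ x) :
    IsNefClass x := by
  obtain ⟨ι, _, t, M, HM, ht, hM, hs, h1, h2⟩ := h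
  have h3 : ∀ k, (M k).IsNef (HM k) := by
    intro k
    obtain ⟨s, hs, hs0⟩ := hs k
    exact nef_of_section hΓ (hM k) le_rfl hs hs0
  refine ⟨fun v => ?_, fun j => ?_⟩
  · rw [h1, Complex.re_sum]
    refine Finset.sum_nonneg fun k _ => ?_
    rw [Complex.re_ofReal_mul]
    exact mul_nonneg (ht k) ((h3 k).1 v)
  · rw [h2]
    refine Finset.sum_nonneg fun k _ => mul_nonneg (ht k) ?_
    exact_mod_cast (h3 k).2 j

theorem nef_of_pseff (hΓ : IsIsometryGroup Γ) {x : RealClass n c}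
    (h : IsPseudoEffectiveClass Γ x) : IsNefClass x := by
  obtain ⟨y, hy, h1, h2⟩ := h
  have h3 := fun k => nef_of_eff hΓ (hy k)
  exact ⟨fun v => ge_of_tendsto' ((Complex.continuous_re.tendsto _).comp (h1 v v)) fun k =>
    (h3 k).1 v, fun j => ge_of_tendsto' (h2 j) fun k => (h3 k).2 j⟩

theorem pseff_of_eff {x : RealClass n c} (h : IsEffectiveClass Γ x) :
    IsPseudoEffectiveClass Γ x :=
  ⟨fun _ => x, fun _ => h, fun _ _ => tendsto_const_nhds, fun _ => tendsto_const_nhds⟩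

/-- powers -/
def LineBundle.pw (L : LineBundle Γ) (M : ℕ) : LineBundle Γ where
  deg := fun j => M * L.deg j
  e := fun g v => L.e g v ^ M
  holo := fun g hg => (L.holo g hg).pow M
  ne_zero := fun g hg v => pow_ne_zero M (L.ne_zero g hg v)
  mul := fun g hg h hh v => by rw [L.mul g hg h hh, mul_pow]
  stab := fun g hg v z μ hz h1 h2 => by
    rw [L.stab g hg v z μ hz h1 h2, ← Finset.prod_pow]
    refine Finset.prod_congr rfl fun j _ => ?_
    rw [mul_comm, zpow_mul, zpow_natCast]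
  perm := fun g hg π hπ j => by rw [L.perm g hg π hπ]

theorem eff_of_semi (hHK : K.IsChernForm HK) (hHD : ∀ i, (D i).IsChernForm (HD i)) {s : ℝ}
    {d : Fin N → ℝ} (h : IsSemiampleReal K D s d) :
    IsEffectiveClass Γ (realClass K HK D HD s d) := by
  obtain ⟨ι, hι, t, a, b, ht, ha, hs, hd, hg⟩ := h
  choose M hM hMs using hg
  have hMR : ∀ k, (M k : ℝ) ≠ 0 := fun k => by
    have := hM k
    positivity
  refine ⟨ι, hι, fun k => t k / M k, fun k => (K.adj D (a k) (b k)).pw (M k),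
    fun k v w => (M k : ℝ) * Q47.MM.cls HK HD (a k) (fun i => b k i) v w,
    fun k => div_nonneg (ht k).le (Nat.cast_nonneg _), fun k => ?_, fun k => ?_, fun v w => ?_,
    fun j => ?_⟩
  · obtain ⟨hH, F, hF, hFe⟩ := chern_adj hHK hHD (a k) (b k)
    refine ⟨⟨fun u v w => ?_, fun a v w => ?_, fun v w => ?_⟩, fun v => (M k : ℂ) * F v,
      hF.const_mul _, fun g hg v => ?_⟩
    · simp only [hH.add_left]
      ring
    · simp only [hH.smul_left]
      ring
    · simp only [map_mul, Complex.conj_ofReal, ← hH.symm]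
    · change ‖(K.adj D (a k) (b k)).e g v ^ M k‖ ^ 2 = _
      have h1 : ‖(K.adj D (a k) (b k)).e g v ^ M k‖ ^ 2 =
          (‖(K.adj D (a k) (b k)).e g v‖ ^ 2) ^ M k := by
        rw [norm_pow, ← pow_mul, ← pow_mul, mul_comm]
      have h2 : ∀ x : ℂ, ((M k : ℂ) * x).re = M k * x.re := by
        intro x
        have : ((M k : ℕ) : ℂ) = ((M k : ℝ) : ℂ) := by push_cast; rfl
        rw [this, Complex.re_ofReal_mul]
      rw [h1, hFe g hg, ← Real.exp_nat_mul]
      congr 1
      simp only [h2, Complex.re_ofReal_mul]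
      ring
  · have h1 : IsPt (fun _ : Co r => (1 : ℂ)) := fun j => ⟨0, one_ne_zero⟩
    obtain ⟨u, hu, hu0⟩ := hMs k 0 _ h1
    refine ⟨u, ⟨hu.holo, fun μ v z => ?_, fun g hg v z => ?_⟩, 0, _, h1, hu0⟩
    · rw [hu.homog]
      congr 1
      refine Finset.prod_congr rfl fun j _ => ?_
      congr 1
      change _ = ((1 : ℕ) : ℤ) * ((M k : ℤ) * (K.adj D (a k) (b k)).deg j)
      push_cast
      ring
    · rw [hu.eq g hg, pow_one]
      rfl
  · have h1 : ∀ k, ((t k / M k : ℝ) : ℂ) * ((M k : ℝ) *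
        Q47.MM.cls HK HD (a k) (fun i => b k i) v w) =
        t k * Q47.MM.cls HK HD (a k) (fun i => b k i) v w := by
      intro k
      rw [← mul_assoc, ← Complex.ofReal_mul, div_mul_cancel₀ _ (hMR k)]
    rw [Finset.sum_congr rfl fun k _ => h1 k]
    simp only [realClass, Q47.MM.cls, ← hs, ← hd, mul_add, Finset.mul_sum,
      Finset.sum_add_distrib]
    push_cast
    simp only [Finset.sum_mul]
    congr 1
    · exact Finset.sum_congr rfl fun k _ => by ring
    · rw [Finset.sum_comm]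
      exact Finset.sum_congr rfl fun k _ => Finset.sum_congr rfl fun i _ => by ring
  · have h1 : ∀ k, t k / M k * ((((K.adj D (a k) (b k)).pw (M k)).deg j : ℤ) : ℝ) =
        t k * (a k * K.deg j + ∑ i, b k i * (D i).deg j) := by
      intro k
      have h2 : ((K.adj D (a k) (b k)).pw (M k)).deg j =
          M k * (a k * K.deg j + ∑ i, b k i * (D i).deg j) := rfl
      rw [h2]
      push_cast
      rw [← mul_assoc, div_mul_cancel₀ _ (hMR k)]
    rw [Finset.sum_congr rfl fun k _ => h1 k]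
    push_cast
    simp only [realClass, ← hs, ← hd, mul_add, Finset.mul_sum, Finset.sum_add_distrib,
      Finset.sum_mul]
    congr 1
    · exact Finset.sum_congr rfl fun k _ => by ring
    · rw [Finset.sum_comm]
      exact Finset.sum_congr rfl fun k _ => Finset.sum_congr rfl fun i _ => by ring

end Pool.Agent.H896.IG
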