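import Pool.Graph.R_pool_sql_team_seeded_3997aac3.Q47.MM.Kan

/-!
# Forms on the vectors fixed by the reflections
-/

set_option autoImplicit false

namespace Pool.Agent.H896.IR

open Pool.Agent.W594.SYZ2 Pool.Agent.W594.SYZ2.TQ Pool.Agent.TH735.AQ Q47.MM

variable {V : Type*} [NormedAddCommGroup V] [NormedSpace ℂ V]
  {Γ : Subgroup (V ≃ᵃ[ℂ] V)}

/-- The Chern form of the inverse of a line bundle vanishes on the fixed vectors if there is a function
with the absolute values of a section, which is not zero at the translates of a point by fixed vectors. -/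
theorem zero_on_fixed [FiniteDimensional ℂ V] (hΓ : IsTorusQuotient Γ) {g0 : V → ℂ}
    (hg0' : Differentiable ℂ g0) {K : LineBundle Γ} {H : V → V → ℂ} {F : V → ℂ}
    (hH : IsHermitian H) (hpot : IsPot K H F) {v₀ : V} (hne0 : ∀ u, IsFixed Γ u → g0 (v₀ + u) ≠ 0)
    (heq : ∀ (b : V) (hb : b ∈ latt Γ) (v : V), ‖g0 v‖ = ‖K.e (tr b hb) v‖ * ‖g0 (b + v)‖)
    {x : V} (hx : IsFixed Γ x) : (H x x).re = 0 := by
  have hF := hpot.1
  let g : V → ℂ := fun v => g0 v * Complex.exp (F v)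
  have hg : Differentiable ℂ g := hg0'.mul hF.cexp
  have hg0 : ∀ u, IsFixed Γ u → g (v₀ + u) ≠ 0 := by
    intro u hu
    exact mul_ne_zero (hne0 u hu) (Complex.exp_ne_zero _)
  have hgb : ∀ (b : V) (hb : b ∈ latt Γ) (v : V), ‖g v‖ = ‖tw K F (tr b hb) v‖ * ‖g (b + v)‖ := by
    intro b hb v
    simp only [g, tw, tr_apply]
    rw [norm_mul, heq b hb v, norm_mul, norm_mul, Complex.exp_sub, norm_div]
    have h1 : ‖Complex.exp (F (b + v))‖ ≠ 0 := norm_ne_zero_iff.2 (Complex.exp_ne_zero _)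
    field_simp
  let φ : V → ℝ := fun v => ‖g v‖ ^ 2 * Real.exp (Real.pi * (H v v).re)
  have hper : ∀ b ∈ latt Γ, ∀ v, φ (b + v) = φ v := by
    intro b hb v
    change ‖g (b + v)‖ ^ 2 * Real.exp (Real.pi * (H (b + v) (b + v)).re)
      = ‖g v‖ ^ 2 * Real.exp (Real.pi * (H v v).re)
    have e1 : ‖g v‖ ^ 2 = ‖tw K F (tr b hb) v‖ ^ 2 * ‖g (b + v)‖ ^ 2 := by
      rw [hgb b hb v, mul_pow]
    rw [e1, tw_norm hpot, tr_apply, mul_sub, Real.exp_sub]
    field_simp
  have hφc : Continuous φ := ((hg.continuous.norm).pow 2).mul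
    (Real.continuous_exp.comp ((diag_continuous hH).const_mul Real.pi))
  -- bounds on `v₀ + U`
  let U := fixSpace Γ
  have : ProperSpace U := FiniteDimensional.proper ℂ U
  obtain ⟨C, hC⟩ := cobounded ((latt Γ).comap (fixSpace Γ).subtype.toAddMonoidHom) (fix_span hΓ)
  let ψ : U → ℝ := fun u => φ (v₀ + u)
  have hψ : Continuous ψ := hφc.comp (continuous_const.add continuous_subtype_val)
  have hψp : ∀ b ∈ (latt Γ).comap (fixSpace Γ).subtype.toAddMonoidHom, ∀ u, ψ (b + u) = ψ u := by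
    intro b hb u
    simp only [ψ]
    rw [Submodule.coe_add, add_left_comm]
    exact hper _ hb _
  have hψ0 : ∀ u, 0 < ψ u := fun u => by
    have := hg0 u u.2
    simp only [ψ, φ]
    positivity
  have hKc : IsCompact (Metric.closedBall (0 : U) C) := isCompact_closedBall _ _
  obtain ⟨b0, hb0, hbC0⟩ := hC 0
  have hne : (Metric.closedBall (0 : U) C).Nonempty :=
    ⟨b0 + 0, by rwa [mem_closedBall_zero_iff]⟩
  obtain ⟨u1, hu1, hmin⟩ := hKc.exists_isMinOn hne hψ.continuousOn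
  obtain ⟨u2, hu2, hmax⟩ := hKc.exists_isMaxOn hne hψ.continuousOn
  have hlow : ∀ u, ψ u1 ≤ ψ u := by
    intro u
    obtain ⟨b, hb, hbC⟩ := hC u
    rw [← hψp b hb u]
    exact hmin (by rwa [mem_closedBall_zero_iff])
  have hup : ∀ u, ψ u ≤ ψ u2 := by
    intro u
    obtain ⟨b, hb, hbC⟩ := hC u
    rw [← hψp b hb u]
    exact hmax (by rwa [mem_closedBall_zero_iff])
  -- the line
  let f : ℂ → ℂ := fun z => g (v₀ + z • x) * Complex.exp (Real.pi * (z * H x v₀))
  have hline : Differentiable ℂ fun z : ℂ => v₀ + z • x :=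
    (differentiable_id.smul_const x).const_add v₀
  have hf : Differentiable ℂ f := (hg.comp hline).mul
    ((differentiable_id.mul_const (H x v₀)).const_mul (Real.pi : ℂ)).cexp
  have hzx : ∀ z : ℂ, IsFixed Γ (z • x) := fun z => U.smul_mem z hx
  have hf0 : ∀ z, f z ≠ 0 := fun z => mul_ne_zero (hg0 _ (hzx z)) (Complex.exp_ne_zero _)
  set h := (H x x).re with hh
  set h0 := (H v₀ v₀).re with hh0
  have hfψ : ∀ z : ℂ, ψ ⟨z • x, hzx z⟩
      = ‖f z‖ ^ 2 * (Real.exp (Real.pi * h0) * Real.exp (Real.pi * h * ‖z‖ ^ 2)) := by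
    intro z
    have e1 : (H (v₀ + z • x) (v₀ + z • x)).re = h0 + ‖z‖ ^ 2 * h + 2 * (z * H x v₀).re := by
      rw [add_comm v₀, h_diag_add hH, h_diag_smul hH, hH.smul_left]
      ring
    have e2 : ‖Complex.exp (Real.pi * (z * H x v₀))‖ ^ 2
        = Real.exp (2 * (Real.pi * (z * H x v₀).re)) := by
      rw [Complex.norm_exp, Complex.re_ofReal_mul, ← Real.exp_nat_mul]
      norm_num
    have e3 : ‖f z‖ ^ 2
        = ‖g (v₀ + z • x)‖ ^ 2 * Real.exp (2 * (Real.pi * (z * H x v₀).re)) := by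
      rw [← e2, ← mul_pow, ← norm_mul]
    change ‖g (v₀ + z • x)‖ ^ 2 * Real.exp (Real.pi * (H (v₀ + z • x) (v₀ + z • x)).re) = _
    rw [e3, e1, mul_assoc, ← Real.exp_add, ← Real.exp_add]
    congr 2
    ring
  by_contra hne0
  rcases lt_or_gt_of_ne hne0 with hlt | hgt
  · refine hf0 0 ?_
    have hinv : ∀ z : ℂ, (f z)⁻¹ = 0 := by
      refine fun z => zero_of_decay (f := fun z => (f z)⁻¹) (Differentiable.inv hf hf0)
        (R := Real.exp (Real.pi * h0) / ψ u1) (c := Real.pi * (-h)) ?_ ?_ ?_ z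
      · exact div_nonneg (Real.exp_pos _).le (hψ0 _).le
      · exact mul_pos Real.pi_pos (neg_pos.2 hlt)
      · intro z
        have e1 := hlow ⟨z • x, hzx z⟩
        rw [hfψ] at e1
        have e2 := hψ0 u1
        have e3 : 0 < ‖f z‖ ^ 2 := by have := hf0 z; positivity
        rw [norm_inv, inv_pow, inv_le_iff_one_le_mul₀ e3, div_mul_eq_mul_div, div_mul_eq_mul_div,
          one_le_div e2]
        refine e1.trans (le_of_eq ?_)
        have e4 : -(Real.pi * -h * ‖z‖ ^ 2) = Real.pi * h * ‖z‖ ^ 2 := by ring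
        rw [e4]
        ring
    exact inv_eq_zero.1 (hinv 0)
  · refine hf0 0 (zero_of_decay hf (R := ψ u2 / Real.exp (Real.pi * h0)) (c := Real.pi * h)
      (div_nonneg (hψ0 _).le (Real.exp_pos _).le) (mul_pos Real.pi_pos hgt) ?_ 0)
    intro z
    have e1 := hup ⟨z • x, hzx z⟩
    rw [hfψ] at e1
    rw [Real.exp_neg, div_mul_eq_mul_div, le_div_iff₀ (Real.exp_pos _), ← div_eq_mul_inv,
      le_div_iff₀ (Real.exp_pos _)]
    refine le_trans (le_of_eq ?_) e1
    ring

end Pool.Agent.H896.IR
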