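import Pool.Agent.H896.IR.Free
import Pool.Agent.H896.IQ.Eff
import Pool.Graph.R_pool_sql_team_seeded_3997aac3.Q47.MM.Main

/-!
# Isometry groups: semiample line bundles
-/

set_option autoImplicit false

namespace Pool.Agent.H896.IG

open MvPolynomial Pool.Agent.T2H08.FB Pool.Agent.W594.SYZ2
open Pool.Agent.T2H08 Pool.Agent.H896.IQ

variable {n c : ℕ} {r : Fin c → ℕ} {Γ : Subgroup (Trans n r)}

theorem ram_fac (hΓ : IsIsometryGroup Γ) {ρ : (Fin n → ℂ) → ℂ} {σ : MvPolynomial (Co r) ℂ}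
    {l : Fin c → ℕ} (hρ : IsRamification Γ ρ σ l) : FQ.IsRamification (fac Γ) ρ σ l := by
  classical
  refine ⟨hρ.holo, hρ.rho_ne_zero, fun v => ?_, hρ.ne_zero, homog_conv hρ.homog,
    fun g hg => hρ.inv g hg.1⟩
  rw [hρ.rho_zero]
  constructor
  · rintro ⟨g, hg, ⟨μ, hμ⟩, ⟨w, hw⟩, a, ha, hfix⟩
    have hμ1 : g.2 = FQ.scal μ := LinearEquiv.ext fun z => hμ z
    have hμ2 : Permutes g 1 := by
      obtain ⟨π, hπ⟩ := hΓ.isoF g hg
      have h5 := norm_one_of_scal hπ hμ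
      intro z j
      rw [hμ]
      change ∑ i, ‖(μ j : ℂ) * z ⟨j, i⟩‖ ^ 2 = _
      refine Finset.sum_congr rfl fun i _ => ?_
      rw [norm_mul, h5, one_mul]
    refine ⟨g.1, FQ.mem_GV.2 ⟨μ, ?_⟩, ?_, ∑ i, a i • (LinearMap.proj i :
      (Fin n → ℂ) →ₗ[ℂ] ℂ), ?_, ?_⟩
    · have h5 : ((g.1, FQ.scal μ) : FQ.Grp n r) = g := Prod.ext rfl hμ1.symm
      rw [h5]
      exact ⟨hg, hμ2⟩
    · intro h2
      apply hw
      change g.1 w = w
      rw [h2]
      rfl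
    · intro h2
      apply ha
      funext i
      have h3 := lin_eq a (Pi.single i 1)
      rw [h2] at h3
      unfold lin at h3
      rw [Finset.sum_eq_single i] at h3
      · rw [Pi.single_eq_same, mul_one] at h3
        exact h3
      · intro j _ hj
        rw [Pi.single_eq_of_ne hj, mul_zero]
      · intro h
        exact absurd (Finset.mem_univ _) h
    · intro u hu
      rw [← lin_eq, ← lin_eq] at hu
      exact hfix u hu
  · rintro ⟨γ, hγ, hne, ℓ, hℓ, hfix⟩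
    obtain ⟨μ, hμ⟩ := FQ.mem_GV.1 hγ
    have h1 : ∀ u, lin (fun i => ℓ (Pi.single i 1)) u = ℓ u := by
      intro u
      unfold lin
      have h3 : u = ∑ s, u s • (Pi.single s 1 : Fin n → ℂ) := by
        rw [← pi_eq_sum_univ' u]
      conv_rhs => rw [h3, map_sum]
      refine Finset.sum_congr rfl fun i _ => ?_
      rw [map_smul, smul_eq_mul, mul_comm]
    refine ⟨((γ, FQ.scal μ) : FQ.Grp n r), hμ.1, ⟨μ, fun z => rfl⟩, ?_,
      fun i => ℓ (Pi.single i 1), ?_, ?_⟩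
    · by_contra hcon
      push Not at hcon
      exact hne (AffineEquiv.ext fun w => hcon w)
    · intro h2
      apply hℓ
      refine LinearMap.ext fun u => ?_
      rw [← h1 u, h2]
      unfold lin
      simp
    · intro u hu
      rw [h1, h1] at hu
      exact hfix u hu

theorem plu_fac {L : LineBundle Γ} {ρ : (Fin n → ℂ) → ℂ} {σ : MvPolynomial (Co r) ℂ}
    {l : Fin c → ℕ} {m : ℕ} {β : (Fin n → ℂ) → MvPolynomial (Co r) ℂ} {k : Fin c → ℕ}
    (hL : IsLogPluricanonical L m ρ σ l β k) :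
    FQ.IsLogPluricanonical (lbf L) m ρ σ l β k := by
  refine ⟨hL.deg, fun g v z => ?_⟩
  have h3 := hL.eq g.1 g.2.1 1 g.2.2 v z
  rw [Equiv.Perm.sign_one, Units.val_one, Int.cast_one, one_mul] at h3
  exact h3

theorem chern_fac {L : LineBundle Γ} {H : (Fin n → ℂ) → (Fin n → ℂ) → ℂ}
    (hc : L.IsChernForm H) : (lbf L).IsChernForm H := by
  obtain ⟨hH, f, hf, h⟩ := hc
  exact ⟨hH, f, hf, fun g v => h g.1 g.2.1 v⟩

/-- **Base point freeness for rigid pairs.** -/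
theorem semiample_of_rigid (hΓ : IsIsometryGroup Γ)
    {ρ : (Fin n → ℂ) → ℂ} {σ : MvPolynomial (Co r) ℂ} {l : Fin c → ℕ}
    (hρ : IsRamification Γ ρ σ l) {m : ℕ}
    {β : (Fin n → ℂ) → MvPolynomial (Co r) ℂ} {k : Fin c → ℕ} (hβ : FQ.IsEffective β k)
    {L : LineBundle Γ} (hL : IsLogPluricanonical L m ρ σ l β k) (hrig : IR.Rigid σ β)
    {H : (Fin n → ℂ) → (Fin n → ℂ) → ℂ} (hc : L.IsChernForm H) (hn : L.IsNef H) :
    L.IsSemiample := by
  classical
  obtain ⟨M, hM, h5⟩ := IR.semiample_uq (isUQ hΓ) (ram_fac hΓ hρ) hβ (plu_fac hL) hrig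
    (chern_fac hc) hn
  refine semiample_of_secF hΓ hM fun p hp => ?_
  obtain ⟨s, hs, hs0⟩ := h5 p.1 p.2 hp
  refine ⟨s, ⟨hs.holo, fun μ v z => ?_, fun g hg hg' p => hs.eq ⟨g, hg, hg'⟩ p.1 p.2⟩, hs0⟩
  have h6 := hs.homog μ v z
  change s (v, FQ.scal μ z) = _
  rw [h6]
  congr 1
  rw [← Finset.prod_pow]
  refine Finset.prod_congr rfl fun j _ => ?_
  change (μ j : ℂ) ^ ((M : ℤ) * L.deg j) = _
  rw [mul_comm, zpow_mul, zpow_natCast]

end Pool.Agent.H896.IG
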