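import Pool.Agent.H896.IR.Stmt
import Pool.Agent.H896.IR.Nef
import Pool.Agent.H896.IR.Fix

/-!
# Adjoint line bundles, real classes
-/

set_option autoImplicit false

namespace Pool.Agent.H896.IG

open MvPolynomial Pool.Agent.T2H08.FB Pool.Agent.W594.SYZ2 Pool.Agent.W594.SYZ2.TQ
  Pool.Agent.TH735.AQ
open Pool.Agent.T2H08 Pool.Agent.H896.IQ

variable {n c : ℕ} {r : Fin c → ℕ} {Γ : Subgroup (Trans n r)}

variable {K : LineBundle Γ} {N : ℕ} {D : Fin N → LineBundle Γ}
  {HK : (Fin n → ℂ) → (Fin n → ℂ) → ℂ} {HD : Fin N → (Fin n → ℂ) → (Fin n → ℂ) → ℂ}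

theorem chern_adj (hK : K.IsChernForm HK) (hD : ∀ i, (D i).IsChernForm (HD i)) (a : ℕ)
    (b : Fin N → ℕ) :
    (K.adj D a b).IsChernForm (Q47.MM.cls HK HD a fun i => b i) := by
  obtain ⟨hH, F, hF, hFe⟩ := hK
  choose hHD G hG hGe using hD
  refine ⟨?_, fun v => a * F v + ∑ i, b i * G i v, ?_, ?_⟩
  · refine ⟨fun u v w => ?_, fun a v w => ?_, fun v w => ?_⟩
    · simp only [Q47.MM.cls, hH.add_left, (hHD _).add_left, mul_add, Finset.sum_add_distrib]
      ring
    · simp only [Q47.MM.cls, hH.smul_left, (hHD _).smul_left, mul_add, Finset.mul_sum]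
      congr 1
      · ring
      · exact Finset.sum_congr rfl fun i _ => by ring
    · simp only [Q47.MM.cls, map_add, map_mul, map_sum, Complex.conj_ofReal, ← hH.symm,
        ← (hHD _).symm]
  · refine (hF.const_mul _).add (Differentiable.fun_sum fun i _ => (hG i).const_mul _)
  · intro γ hγ v
    have h1 : ‖(K.adj D a b).e γ v‖ ^ 2 = (‖K.e γ v‖ ^ 2) ^ a *
        ∏ i, (‖(D i).e γ v‖ ^ 2) ^ b i := by
      change ‖K.e γ v ^ a * ∏ i, (D i).e γ v ^ b i‖ ^ 2 = _
      rw [norm_mul, norm_pow, norm_prod, mul_pow, ← pow_mul, ← pow_mul, mul_comm a 2,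
        ← Finset.prod_pow]
      congr 1
      exact Finset.prod_congr rfl fun i _ => by
        rw [norm_pow, ← pow_mul, ← pow_mul, mul_comm]
    have h2 : ∀ i, (‖(D i).e γ v‖ ^ 2) ^ b i = Real.exp (b i * (Real.pi *
        (HD i (onV γ v) (onV γ v)).re
        + 2 * (G i (onV γ v)).re - (Real.pi * (HD i v v).re + 2 * (G i v).re))) :=
      fun i => by rw [hGe i γ hγ, ← Real.exp_nat_mul]
    have hG' : ∀ x : Fin n → ℂ, ((a : ℂ) * F x + ∑ i, (b i : ℂ) * G i x).re
        = a * (F x).re + ∑ i, (b i : ℝ) * (G i x).re := by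
      intro x
      rw [Complex.add_re, Complex.re_sum]
      congr 1
      · have : ((a : ℕ) : ℂ) = ((a : ℝ) : ℂ) := by push_cast; rfl
        rw [this, Complex.re_ofReal_mul]
      · refine Finset.sum_congr rfl fun i _ => ?_
        have : ((b i : ℕ) : ℂ) = ((b i : ℝ) : ℂ) := by push_cast; rfl
        rw [this, Complex.re_ofReal_mul]
    rw [h1, Finset.prod_congr rfl fun i _ => h2 i, ← Real.exp_sum, hFe γ hγ, ← Real.exp_nat_mul,
      ← Real.exp_add]
    congr 1
    simp only [Q47.MM.cls_re, hG', mul_add, mul_sub, Finset.sum_add_distrib,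
      Finset.sum_sub_distrib, Finset.mul_sum]
    have e1 : ∀ x : Fin n → ℂ, ∑ i, (b i : ℝ) * (Real.pi * (HD i x x).re)
        = ∑ i, Real.pi * ((b i : ℝ) * (HD i x x).re) := fun x =>
      Finset.sum_congr rfl fun i _ => by ring
    have e2 : ∀ x : Fin n → ℂ, ∑ i, (b i : ℝ) * (2 * (G i x).re)
        = ∑ i, 2 * ((b i : ℝ) * (G i x).re) := fun x =>
      Finset.sum_congr rfl fun i _ => by ring
    rw [e1, e1, e2, e2]
    ring

variable {ρ : (Fin n → ℂ) → ℂ} {σ : MvPolynomial (Co r) ℂ} {l : Fin c → ℕ} {m : ℕ}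
  {β : Fin N → (Fin n → ℂ) → MvPolynomial (Co r) ℂ} {κ : Fin N → Fin c → ℕ}

theorem eff_conv {β : (Fin n → ℂ) → MvPolynomial (Co r) ℂ} {k : Fin c → ℕ}
    (hβ : IsEffective β k) : FQ.IsEffective β k :=
  ⟨hβ.holo, fun v => homog_conv (hβ.homog v), hβ.ne_zero⟩

/-- The adjoint line bundle is `O (m a (K_X + ∑ b_i / (m a) D_i))`. -/
theorem plu_adj (hK : IsLogPluricanonical K m ρ σ l (fun _ => 1) (fun _ => 0))
    (hβ : ∀ i, IsCartier (D i) (β i) (κ i)) (a : ℕ) (b : Fin N → ℕ) :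
    IsLogPluricanonical (K.adj D a b) (m * a) ρ σ l (fun v => ∏ i, β i v ^ b i)
      (fun j => ∑ i, b i * κ i j) := by
  refine ⟨fun j => ?_, fun g hg π hπ v z => ?_⟩
  · have h1 := hK.deg j
    have h2 : (K.adj D a b).deg j = a * K.deg j + ∑ i, (b i : ℤ) * κ i j := by
      change (a : ℤ) * K.deg j + ∑ i, (b i : ℤ) * (D i).deg j = _
      congr 1
      exact Finset.sum_congr rfl fun i _ => by rw [(hβ i).deg]
    rw [h2]
    push_cast
    push_cast at h1
    linear_combination (a : ℤ) * h1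
  · have h1 := hK.eq g hg π hπ v z
    simp only [map_one, one_mul, mul_one] at h1
    have h2 : eval (onZ g z) (∏ i, β i (onV g v) ^ b i) =
        (∏ i, (D i).e g v ^ b i) * eval z (∏ i, β i v ^ b i) := by
      rw [map_prod, map_prod, ← Finset.prod_mul_distrib]
      refine Finset.prod_congr rfl fun i _ => ?_
      rw [map_pow, map_pow, (hβ i).eq g hg, mul_pow]
    change eval (onZ g z) (∏ i, β i (onV g v) ^ b i) * _ =
      (K.e g v ^ a * ∏ i, (D i).e g v ^ b i) * _ * _ * _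
    rw [h2, pow_mul, pow_mul, pow_mul, h1]
    rw [mul_pow, mul_pow]
    ring

/-! ### The nef criterion -/

/-- the restriction of the line bundles to a constant section, as line bundles on a torus quotient -/
theorem exists_restriction (hΓ : IsIsometryGroup Γ) (hρ : IsRamification Γ ρ σ l) :
    ∃ G : Subgroup ((Fin n → ℂ) ≃ᵃ[ℂ] (Fin n → ℂ)), IsTorusQuotient G ∧
      (∀ (L : LineBundle Γ) (H : (Fin n → ℂ) → (Fin n → ℂ) → ℂ), L.IsChernForm H →
        ∃ L' : Pool.Agent.W594.SYZ2.LineBundle G, IsChernForm L' H) ∧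
      ∀ (K : LineBundle Γ) (HK : (Fin n → ℂ) → (Fin n → ℂ) → ℂ) (m : ℕ),
        IsLogPluricanonical K m ρ σ l (fun _ => 1) (fun _ => 0) → K.IsChernForm HK →
        ∀ x, Q47.MM.IsFixed G x → (HK x x).re = 0 := by
  obtain ⟨P, hP, hQ⟩ := IR.exists_flat (isUQ hΓ)
  have hG := FQ.torus_GD hQ
  have hρ' := IR.ram_chg hP (ram_fac hΓ hρ)
  refine ⟨FQ.GD (chg P (fac Γ)), hG, fun L H hc => ?_, fun K HK m hK hc x hx => ?_⟩
  · obtain ⟨hH, f, hf, h⟩ := IR.chern_chg hP (chern_fac hc)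
    obtain ⟨h1, h2⟩ := FQ.secL_chern hQ hf h (fun _ => 0)
    exact ⟨FQ.secL (lbc hP (lbf L)) (fun _ => 0), hH, f, h1, h2⟩
  · have hK' := IR.plu_chg hP (plu_fac hK)
    obtain ⟨hH, f, hf, h⟩ := IR.chern_chg hP (chern_fac hc)
    have hpot := FQ.secL_chern hQ hf h (fun _ => 0)
    obtain ⟨v₀, hv₀⟩ := hρ'.rne
    have hmir : ¬ OnMirror (FQ.GV (chg P (fac Γ))) v₀ := fun h => hv₀ ((hρ'.rzero v₀).2 h)
    refine IR.zero_on_fixed hG (g0 := fun v => ρ v ^ m) (hρ'.holo.pow m) hH hpot (v₀ := v₀)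
      (fun u hu h0 => ?_) (fun b hb v => ?_) hx
    · have h1 := (hρ'.rzero _).1 (eq_zero_of_pow_eq_zero h0)
      obtain ⟨γ, hγ, hne, ℓ, hℓ, hfix⟩ := h1
      obtain ⟨a, ha⟩ := Q47.MM.refl_of_mirror hG (FQ.GV_le hγ) hne hℓ hfix
      have h2 : ℓ u = 0 := ha.fix.1 (hu _ ⟨γ, FQ.GV_le hγ, rfl⟩ ⟨ℓ, a, ha⟩)
      exact hmir ⟨γ, hγ, hne, ℓ, hℓ, fun w hw => hfix w (by rw [hw, map_add, h2, add_zero])⟩
    · obtain ⟨a, ha⟩ := FQ.inv_diag hρ' (tr b hb)
      have h1 : ∀ s, ‖(FQ.chiOf (tr b hb) s : ℂ)‖ = 1 := FQ.norm_chi hQ (FQ.lft (tr b hb)).2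
      have h2 := FQ.eq_kap hK' hρ'.ne_zero (fun _ => 0) 0 hb ha v
      have h3 : (sub P (1 : MvPolynomial (Co r) ℂ)) = 1 := map_one _
      rw [h3] at h2
      have h4 : coeff 0 (1 : MvPolynomial (Co r) ℂ) = 1 := by
        rw [← map_one (C : ℂ →+* MvPolynomial (Co r) ℂ), coeff_C, if_pos rfl]
      rw [h4, one_mul, mul_one] at h2
      have h5 := congrArg norm h2
      rw [norm_mul, norm_mul, FQ.norm_kap _ _ _ _ h1 (FQ.norm_sigma h1 hρ'.ne_zero ha),
        one_mul] at h5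
      exact h5

theorem nef_of_cartier (hΓ : IsIsometryGroup Γ) {D : LineBundle Γ}
    {β : (Fin n → ℂ) → MvPolynomial (Co r) ℂ} {κ : Fin c → ℕ} (hβ : IsCartier D β κ)
    {H : (Fin n → ℂ) → (Fin n → ℂ) → ℂ} (hc : D.IsChernForm H) : IsNefForm H := by
  have hβ' := eff_conv hβ.effective
  refine (nef_of_section hΓ hc (M := 1) le_rfl (s := fun v z => eval z (β v)) ⟨?_, ?_, ?_⟩ ?_).1
  · exact FQ.holo_eval hβ'.holo hβ'.homog
  · intro μ v z
    have h1 := eval_scal (hβ'.homog v) μ z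
    change eval (FQ.scal μ z) (β v) = _
    rw [h1]
    congr 1
    refine Finset.prod_congr rfl fun j _ => ?_
    rw [hβ.deg j, Nat.cast_one, one_mul, zpow_natCast]
  · intro g hg v z
    rw [pow_one]
    exact hβ.eq g hg v z
  · obtain ⟨v, hv⟩ := hβ'.ne_zero
    by_contra hcon
    push Not at hcon
    apply hv
    -- a polynomial which is zero at all points of `F` is zero
    refine MvPolynomial.funext fun z => ?_
    rw [map_zero]
    -- `z + t` is a point for all but finitely many `t`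
    obtain ⟨zt, hzt⟩ : ∃ zt : ℂ → Co r → ℂ, ∀ t s, zt t s = z s + t := ⟨_, fun _ _ => rfl⟩
    have hztc : Continuous zt := by
      refine continuous_pi fun s => ?_
      simp only [hzt]
      exact continuous_const.add continuous_id
    have hc1 : Continuous fun t : ℂ => eval (zt t) (β v) := by
      have h2 : Continuous fun p : (Fin n → ℂ) × (Co r → ℂ) => eval p.2 (β p.1) :=
        (FQ.holo_eval hβ'.holo hβ'.homog).continuous
      have h3 : Continuous fun t : ℂ => ((v, zt t) : (Fin n → ℂ) × (Co r → ℂ)) :=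
        continuous_const.prodMk hztc
      have h4 := h2.comp h3
      simp only [Function.comp_def] at h4
      exact h4
    have h5 : ∀ t : ℂ, t ∉ Set.range (fun s : Co r => -z s) → IsPt (zt t) := by
      intro t ht j
      refine ⟨0, fun h0 => ht ⟨⟨j, 0⟩, ?_⟩⟩
      rw [hzt] at h0
      change -z ⟨j, 0⟩ = t
      linear_combination -h0
    have h2 : Set.EqOn (fun t : ℂ => eval (zt t) (β v)) (fun _ => 0)
        ((Set.range fun s : Co r => -z s)ᶜ) := fun t ht => hcon v (zt t) (h5 t ht)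
    have h3 : Dense ((Set.range fun s : Co r => -z s)ᶜ) :=
      (Set.finite_range (fun s : Co r => -z s)).countable.dense_compl ℝ
    have h4 := congrFun (Continuous.ext_on h3 hc1 continuous_const h2) 0
    have h6 : zt 0 = z := by
      funext s
      rw [hzt, add_zero]
    simp only [h6] at h4
    exact h4

end Pool.Agent.H896.IG
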