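import Pool.Agent.H896.IR.Iso
import Pool.Agent.H896.IQ.Nrm

/-!
# Base point freeness for rigid pairs

`chi_root`, `semiample`, `semiample_uq` and `semiample_of_nef` of the library and of `IQ` with the
hypothesis `Rigid` instead of klt.
-/

set_option autoImplicit false

namespace Pool.Agent.H896.IR

open Pool.Agent.T2H08.FQ Pool.Agent.W594.SYZ2 Pool.Agent.W594.SYZ2.TQ Pool.Agent.TH735.AQ
  MvPolynomial MeasureTheory Pool.Agent.H896.IQ

variable {n c : ℕ} {r : Fin c → ℕ}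

section

variable {Γ : Subgroup (Grp n r)}
  {L : LineBundle Γ} {ρ : (Fin n → ℂ) → ℂ} {σ : MvPolynomial (Co r) ℂ} {l k : Fin c → ℕ}
  {β : (Fin n → ℂ) → MvPolynomial (Co r) ℂ} {m : ℕ} {H : (Fin n → ℂ) → (Fin n → ℂ) → ℂ}
  {f : (Fin n → ℂ) → ℂ}

/-- **The characters are roots of unity.** -/
theorem chi_root (hΓ : IsFlatQuotient Γ) (hρ : IsRamification Γ ρ σ l)
    (hβ : IsEffective β k) (hL : IsLogPluricanonical L m ρ σ l β k) (hH : IsHermitian H)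
    (hn : IsNefForm H)
    (hex : ∃ N : ℕ, 1 ≤ N ∧ ∀ (j : Fin c) (i i' : Fin (r j + 1)),
      N • (Pi.single ⟨j, i⟩ 1 - Pi.single ⟨j, i'⟩ 1 : Co r → ℤ) ∈
        AddSubgroup.closure (Dif β σ)) :
    ∃ N : ℕ, 1 ≤ N ∧ ∀ ι : ∀ j, Fin (r j + 1), IsPot (secL L ι) H f →
      ∀ b ∈ latt (GD Γ), b ∈ KN (GD Γ) (ker hH) → chi (secL L ι) f b ^ N = 1 := by
  classical
  obtain ⟨N, hN1, hN⟩ := hex
  refine ⟨N, hN1, fun ι hpot b hb hbK => ?_⟩
  obtain ⟨v1, hv1⟩ := hβ.ne_zero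
  obtain ⟨I0, hI0⟩ := MvPolynomial.support_nonempty.2 hv1
  obtain ⟨J0, hJ0⟩ := MvPolynomial.support_nonempty.2 hρ.ne_zero
  obtain ⟨a, ha'⟩ := inv_diag hρ (tr b hb)
  obtain ⟨χ, hχ⟩ : ∃ χ, χ = chiOf (tr b hb) := ⟨_, rfl⟩
  have hval : ∀ I : Co r →₀ ℕ, (∃ v, coeff I (β v) ≠ 0) →
      (∏ s, (chiOf (tr b hb) s : ℂ) ^ I s)⁻¹ * (∏ s, (chiOf (tr b hb) s : ℂ)) ^ m * a ^ m *
        (∏ j, (chiOf (tr b hb) ⟨j, ι j⟩ : ℂ) ^ L.deg j) * chi (secL L ι) f b = 1 :=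
    fun I hI => chi_value hΓ hρ hβ hL hH hn ι hpot hI hb hbK ha'
  rw [← hχ] at ha' hval
  have hne : ∀ I : Co r →₀ ℕ, ∏ s, (χ s : ℂ) ^ I s ≠ 0 := fun I =>
    Finset.prod_ne_zero_iff.2 fun s _ => pow_ne_zero _ (Units.ne_zero _)
  have hEq : ∀ I I' : Co r →₀ ℕ, ∏ s, (χ s : ℂ) ^ I s = ∏ s, (χ s : ℂ) ^ I' s →
      ∏ s, χ s ^ ((I s : ℤ) - I' s) = 1 := by
    intro I I' h
    apply Units.ext
    rw [Units.coe_prod, Units.val_one]
    have h1 : ∀ s, ((χ s ^ ((I s : ℤ) - I' s) : ℂˣ) : ℂ) = (χ s : ℂ) ^ I s * ((χ s : ℂ) ^ I' s)⁻¹ := by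
      intro s
      rw [Units.val_zpow_eq_zpow_val, zpow_sub₀ (Units.ne_zero _), zpow_natCast, zpow_natCast,
        div_eq_mul_inv]
    rw [Finset.prod_congr rfl fun s _ => h1 s, Finset.prod_mul_distrib, Finset.prod_inv_distrib, h]
    exact mul_inv_cancel₀ (hne I')
  have hone : ∀ x ∈ Dif β σ, ∏ s, χ s ^ x s = 1 := by
    rintro x (⟨I, I', hI, hI', rfl⟩ | ⟨J, hJ, J', hJ', rfl⟩)
    · refine hEq I I' ?_
      have h1 := hval I hI
      have h2 := hval I' hI'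
      rw [← h2] at h1
      have h3 : (∏ s, (χ s : ℂ)) ^ m * a ^ m * (∏ j, (χ ⟨j, ι j⟩ : ℂ) ^ L.deg j) *
          chi (secL L ι) f b ≠ 0 := by
        intro h0
        have h4 : (∏ s, (χ s : ℂ) ^ I s)⁻¹ * ((∏ s, (χ s : ℂ)) ^ m * a ^ m *
          (∏ j, (χ ⟨j, ι j⟩ : ℂ) ^ L.deg j) * chi (secL L ι) f b) = 1 := by
          rw [← hval I hI]
          ring
        rw [h0, mul_zero] at h4
        exact zero_ne_one h4
      have h4 : (∏ s, (χ s : ℂ) ^ I s)⁻¹ * ((∏ s, (χ s : ℂ)) ^ m * a ^ m *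
          (∏ j, (χ ⟨j, ι j⟩ : ℂ) ^ L.deg j) * chi (secL L ι) f b) =
          (∏ s, (χ s : ℂ) ^ I' s)⁻¹ * ((∏ s, (χ s : ℂ)) ^ m * a ^ m *
          (∏ j, (χ ⟨j, ι j⟩ : ℂ) ^ L.deg j) * chi (secL L ι) f b) := by
        linear_combination h1
      exact inv_injective (mul_right_cancel₀ h3 h4)
    · refine hEq J J' ?_
      rw [coeff_sigma ha' hJ, coeff_sigma ha' hJ']
  -- the powers are equal on the blocks
  have hpow : ∀ j (i i' : Fin (r j + 1)), (χ ⟨j, i⟩ : ℂ) ^ N = (χ ⟨j, i'⟩ : ℂ) ^ N := by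
    intro j i i'
    have h1 := char_closure χ hone (hN j i i')
    have h2 : ∀ x : Co r, ∏ s, χ s ^ (N * (Pi.single x 1 : Co r → ℤ) s) = χ x ^ N := by
      intro x
      rw [Finset.prod_eq_single x (fun s _ hs => by rw [Pi.single_eq_of_ne hs, mul_zero, zpow_zero])
        (fun h => absurd (Finset.mem_univ _) h), Pi.single_eq_same, mul_one, zpow_natCast]
    have h3 : ∏ s, χ s ^ ((N • (Pi.single ⟨j, i⟩ 1 - Pi.single ⟨j, i'⟩ 1 : Co r → ℤ)) s) =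
        χ ⟨j, i⟩ ^ N * (χ ⟨j, i'⟩ ^ N)⁻¹ := by
      rw [← h2 ⟨j, i⟩, ← h2 ⟨j, i'⟩, ← Finset.prod_inv_distrib, ← Finset.prod_mul_distrib]
      refine Finset.prod_congr rfl fun s _ => ?_
      rw [Pi.smul_apply, Pi.sub_apply, nsmul_eq_mul, mul_sub, zpow_sub]
    rw [h3, mul_inv_eq_one] at h1
    have h4 := congrArg (Units.val) h1
    rwa [Units.val_pow_eq_pow_val, Units.val_pow_eq_pow_val] at h4
  obtain ⟨ν, hν⟩ : ∃ ν : Fin c → ℂ, ∀ j, ν j = (χ ⟨j, ι j⟩ : ℂ) ^ N := ⟨_, fun _ => rfl⟩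
  have hν0 : ∀ j, ν j ≠ 0 := fun j => by
    rw [hν]
    exact pow_ne_zero _ (Units.ne_zero _)
  have hmon : ∀ (I : Co r →₀ ℕ) (e : Fin c → ℕ), (∀ j, ∑ i, I ⟨j, i⟩ = e j) →
      (∏ s, (χ s : ℂ) ^ I s) ^ N = ∏ j, ν j ^ e j := by
    intro I e hI
    rw [← Finset.prod_pow, Fintype.prod_sigma]
    refine Finset.prod_congr rfl fun j _ => ?_
    rw [← hI j, ← Finset.prod_pow_eq_pow_sum]
    refine Finset.prod_congr rfl fun i _ => ?_
    rw [hν, ← hpow j i (ι j), ← pow_mul, ← pow_mul, mul_comm]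
  have hall : (∏ s, (χ s : ℂ)) ^ N = ∏ j, ν j ^ (r j + 1) := by
    rw [← Finset.prod_pow, Fintype.prod_sigma]
    refine Finset.prod_congr rfl fun j _ => ?_
    rw [Finset.prod_congr rfl fun i _ => hpow j i (ι j), Finset.prod_const, Finset.card_univ,
      Fintype.card_fin, hν]
  have h1 := hval I0 ⟨v1, mem_support_iff.1 hI0⟩
  have h2 := congrArg (fun t => t ^ N) h1
  simp only [mul_pow, one_pow] at h2
  rw [inv_pow, hmon I0 k (hβ.homog v1 I0 hI0), ← pow_mul, mul_comm m N, pow_mul _ N m, hall,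
    ← coeff_sigma ha' hJ0, ← pow_mul, mul_comm m N, pow_mul _ N m,
    hmon J0 l (hρ.homog J0 hJ0)] at h2
  have h3 : (∏ j, (χ ⟨j, ι j⟩ : ℂ) ^ L.deg j) ^ N = ∏ j, ν j ^ L.deg j := by
    rw [← Finset.prod_pow]
    refine Finset.prod_congr rfl fun j _ => ?_
    rw [hν, ← zpow_natCast, ← zpow_natCast, ← zpow_mul, ← zpow_mul, mul_comm]
  rw [h3] at h2
  have h4 : (∏ j, ν j ^ k j)⁻¹ * (∏ j, ν j ^ (r j + 1)) ^ m * (∏ j, ν j ^ l j) ^ m *
      (∏ j, ν j ^ L.deg j) = 1 := by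
    rw [← Finset.prod_inv_distrib, ← Finset.prod_pow, ← Finset.prod_pow, ← Finset.prod_mul_distrib,
      ← Finset.prod_mul_distrib, ← Finset.prod_mul_distrib]
    refine Finset.prod_eq_one fun j _ => ?_
    rw [← zpow_natCast (ν j) (k j), ← zpow_natCast (ν j) (r j + 1), ← zpow_natCast (ν j) (l j),
      ← zpow_natCast _ m, ← zpow_natCast _ m, ← zpow_mul, ← zpow_mul, ← zpow_neg,
      ← zpow_add₀ (hν0 j), ← zpow_add₀ (hν0 j), ← zpow_add₀ (hν0 j)]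
    have h5 := hL.deg j
    have h6 : -(k j : ℤ) + ((r j + 1 : ℕ) : ℤ) * m + (l j : ℤ) * m + L.deg j = 0 := by
      push_cast
      linarith
    rw [h6, zpow_zero]
  rw [h4, one_mul] at h2
  exact h2

/-- **Base point freeness on flat quotients.** -/
theorem semiample (hΓ : IsFlatQuotient Γ) (hρ : IsRamification Γ ρ σ l)
    (hβ : IsEffective β k) (hL : IsLogPluricanonical L m ρ σ l β k)
    (hex : ∃ N : ℕ, 1 ≤ N ∧ ∀ (j : Fin c) (i i' : Fin (r j + 1)),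
      N • (Pi.single ⟨j, i⟩ 1 - Pi.single ⟨j, i'⟩ 1 : Co r → ℤ) ∈
        AddSubgroup.closure (Dif β σ)) (hc : L.IsChernForm H) (hn : L.IsNef H) :
    L.IsSemiample := by
  classical
  obtain ⟨hH, f, hf, hpot⟩ := hc
  have hG := torus_GD hΓ
  have hP : ∀ ι : ∀ j, Fin (r j + 1), IsPot (secL L ι) H f := secL_chern hΓ hf hpot
  obtain ⟨N, hN1, hN⟩ := chi_root (f := f) hΓ hρ hβ hL hH hn.1 hex
  have h1 : ∀ ι : ∀ j, Fin (r j + 1), ∃ k : ℕ, 1 ≤ k ∧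
      ∀ v, ∃ s, ((secL L ι).pow k).IsSection s ∧ s v ≠ 0 := by
    intro ι
    obtain ⟨N', hN1', hN'⟩ := root_of_fixed hG hH (hP ι) hN1 (hN ι (hP ι))
    exact free_of_root hG hH (hP ι) hn.1 hN1' hN'
  choose κ hκ1 hκ using h1
  refine semiample_of_secD hΓ (K := ∏ ι, κ ι)
    (Nat.succ_le_of_lt (Finset.prod_pos fun ι _ => hκ1 ι)) ?_
  rintro ⟨v, z⟩ hz
  choose ι hι using hz
  obtain ⟨θ, hθ, hθ0⟩ := hκ ι v
  obtain ⟨M, hM⟩ := Finset.dvd_prod_of_mem κ (Finset.mem_univ ι)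
  have h2 : ((secL L ι).pow (∏ ι, κ ι)).IsSection fun v => θ v ^ M := by
    refine ⟨hθ.holo.pow M, fun γ w => ?_⟩
    have h3 : θ ((γ : (Fin n → ℂ) ≃ᵃ[ℂ] (Fin n → ℂ)) w) = (secL L ι).e γ w ^ κ ι * θ w :=
      hθ.eq γ w
    change θ ((γ : (Fin n → ℂ) ≃ᵃ[ℂ] (Fin n → ℂ)) w) ^ M =
      (secL L ι).e γ w ^ (∏ ι, κ ι) * θ w ^ M
    rw [h3, hM, pow_mul, mul_pow]
  refine ⟨_, lift_section hn.2 ι h2, ?_⟩
  refine mul_ne_zero (pow_ne_zero _ hθ0) (pow_ne_zero _ ?_)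
  exact Finset.prod_ne_zero_iff.2 fun j _ => pow_ne_zero _ (hι j)

end

/-- coordinates in which the quotient is flat -/
theorem exists_flat {Γ : Subgroup (Grp n r)} (hΓ : IsUQ Γ) :
    ∃ P : (Co r → ℂ) ≃ₗ[ℂ] (Co r → ℂ), BU (lm P) ∧ IsFlatQuotient (chg P Γ) := by
  classical
  obtain ⟨P, hP, R, hR, hdiag⟩ := exists_diagonal hΓ
  refine ⟨P, hP, ?_⟩
  refine ⟨?_, ?_, ?_, ?_⟩
  · intro g hg z j
    have h1 : g.2 z = P.symm ((cj P g).2 (P z)) := by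
      rw [cj_apply, LinearEquiv.symm_apply_apply]
    have h2 : BU (lm P.symm) := hP.symm
    rw [h1]
    exact ((h2 _ j).trans (hΓ.unitary _ hg _ j)).trans (hP z j)
  · intro μ hμ
    rw [mem_chg, cj_scal hP]
    exact hΓ.scalar μ hμ
  · rw [GA_chg]
    exact hΓ.torus
  · refine relIndex_of_cover _ _ (R := (fun y : Grp n r => ((y.1, P⁻¹ * y.2 * P) : Grp n r)) '' R)
      (hR.image _) fun x hx => ?_
    obtain ⟨y, hy, χ, hχ⟩ := hdiag _ hx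
    refine ⟨_, ⟨y, hy, rfl⟩, ?_⟩
    obtain ⟨w, hw⟩ : ∃ w : Grp n r, w = ((y.1, P⁻¹ * y.2 * P) : Grp n r)⁻¹ * x := ⟨_, rfl⟩
    have h1 : cj P w = y⁻¹ * cj P x := by
      rw [hw, map_mul, map_inv]
      congr 2
      refine Prod.ext rfl ?_
      change P * (P⁻¹ * y.2 * P) * P⁻¹ = y.2
      group
    have h2 : ∀ z, w.2 z = fun s => χ s * z s := by
      intro z
      apply P.injective
      rw [← cj_apply, h1]
      exact hχ z
    have h3 : ∀ s, χ s ≠ 0 := by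
      intro s hs
      have h4 := h2 (Pi.single s 1)
      have h5 : (fun t => χ t * (Pi.single s 1 : Co r → ℂ) t) = 0 := by
        funext t
        by_cases ht : t = s
        · subst ht
          rw [hs, zero_mul]
          rfl
        · rw [Pi.single_eq_of_ne ht, mul_zero]
          rfl
      rw [h5] at h4
      have h6 := w.2.injective (h4.trans (map_zero w.2).symm)
      have h7 := congrFun h6 s
      rw [Pi.single_eq_same] at h7
      exact one_ne_zero h7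
    change ((y.1, P⁻¹ * y.2 * P) : Grp n r)⁻¹ * x ∈ Diags n r
    rw [← hw]
    refine ⟨fun s => Units.mk0 (χ s) (h3 s), LinearEquiv.ext fun z => ?_⟩
    rw [MonoidHom.coe_snd, h2]
    rfl

theorem ram_chg {Γ : Subgroup (Grp n r)} {P : (Co r → ℂ) ≃ₗ[ℂ] (Co r → ℂ)} (hP : BU (lm P))
    {ρ : (Fin n → ℂ) → ℂ} {σ : MvPolynomial (Co r) ℂ} {l : Fin c → ℕ}
    (hρ : IsRamification Γ ρ σ l) : IsRamification (chg P Γ) ρ (sub P σ) l := by
  refine ⟨hρ.holo, hρ.rne, ?_, sub_ne_zero hρ.ne_zero, isHomog_sub hP hρ.homog, fun g hg => ?_⟩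
  · rw [GV_chg hP]
    exact hρ.rzero
  · obtain ⟨a, ha⟩ := hρ.inv _ hg
    refine ⟨a, fun z => ?_⟩
    rw [eval_sub, eval_sub, ← cj_apply]
    exact ha (P z)

theorem eff_chg {P : (Co r → ℂ) ≃ₗ[ℂ] (Co r → ℂ)} (hP : BU (lm P)) {k : Fin c → ℕ}
    {β : (Fin n → ℂ) → MvPolynomial (Co r) ℂ} (hβ : IsEffective β k) :
    IsEffective (fun v => sub P (β v)) k := by
  refine ⟨fun I => holo_sub hβ.holo hβ.homog I, fun v => isHomog_sub hP (hβ.homog v), ?_⟩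
  obtain ⟨v, hv⟩ := hβ.ne_zero
  exact ⟨v, sub_ne_zero hv⟩

theorem plu_chg {Γ : Subgroup (Grp n r)} {P : (Co r → ℂ) ≃ₗ[ℂ] (Co r → ℂ)} (hP : BU (lm P))
    {L : LineBundle Γ} {ρ : (Fin n → ℂ) → ℂ} {σ : MvPolynomial (Co r) ℂ} {l k : Fin c → ℕ}
    {β : (Fin n → ℂ) → MvPolynomial (Co r) ℂ} {m : ℕ}
    (hL : IsLogPluricanonical L m ρ σ l β k) :
    IsLogPluricanonical (lbc hP L) m ρ (sub P σ) l (fun v => sub P (β v)) k := by
  refine ⟨hL.deg, fun g v z => ?_⟩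
  have h4 := hL.eq ⟨cj P g, g.2⟩ v (P z)
  have h5 : ((⟨cj P g, g.2⟩ : Γ) : Grp n r).2 (P z) = P ((g : Grp n r).2 z) := cj_apply P _ z
  have h6 : LinearMap.det (lm ((⟨cj P g, g.2⟩ : Γ) : Grp n r).2) =
      LinearMap.det (lm (g : Grp n r).2) := det_cj P _
  rw [h5, h6] at h4
  rw [eval_sub, eval_sub, eval_sub, eval_sub]
  exact h4

theorem chern_chg {Γ : Subgroup (Grp n r)} {P : (Co r → ℂ) ≃ₗ[ℂ] (Co r → ℂ)} (hP : BU (lm P))
    {L : LineBundle Γ} {H : (Fin n → ℂ) → (Fin n → ℂ) → ℂ} (hc : L.IsChernForm H) :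
    (lbc hP L).IsChernForm H := by
  obtain ⟨hH, f, hf, h⟩ := hc
  exact ⟨hH, f, hf, fun g v => h ⟨cj P g, g.2⟩ v⟩

/-- **Base point freeness without distinguished coordinates.** -/
theorem semiample_uq {Γ : Subgroup (Grp n r)} (hΓ : IsUQ Γ)
    {L : LineBundle Γ} {ρ : (Fin n → ℂ) → ℂ} {σ : MvPolynomial (Co r) ℂ} {l k : Fin c → ℕ}
    {β : (Fin n → ℂ) → MvPolynomial (Co r) ℂ} {m : ℕ} {H : (Fin n → ℂ) → (Fin n → ℂ) → ℂ}
    (hρ : IsRamification Γ ρ σ l) (hβ : IsEffective β k)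
    (hL : IsLogPluricanonical L m ρ σ l β k) (hrig : Rigid σ β) (hc : L.IsChernForm H)
    (hn : L.IsNef H) : L.IsSemiample := by
  classical
  obtain ⟨P, hP, hQ⟩ := exists_flat hΓ
  have hβ' := eff_chg hP hβ
  have hρ' := ram_chg hP hρ
  obtain ⟨M, hM, h5⟩ := semiample hQ hρ' hβ' (plu_chg hP hL)
    (exists_N' hβ' hρ'.homog hρ'.ne_zero (hrig P hP)) (chern_chg hP hc) hn
  refine ⟨M, hM, fun v z hz => ?_⟩
  obtain ⟨s, hs, hs0⟩ := h5 v (P.symm z) ((BU.symm hP).isPt hz)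
  refine ⟨fun p => s (p.1, P.symm p.2), ⟨?_, ?_, ?_⟩, hs0⟩
  · have h6 : Differentiable ℂ fun p : (Fin n → ℂ) × (Co r → ℂ) => (p.1, P.symm p.2) := by
      have h7 : Differentiable ℂ fun z => P.symm z :=
        ((P.symm : (Co r → ℂ) →ₗ[ℂ] (Co r → ℂ)).toContinuousLinearMap).differentiable
      exact differentiable_fst.prodMk (h7.comp differentiable_snd)
    exact hs.holo.comp h6
  · intro μ v z
    have h6 : P.symm (scal μ z) = scal μ (P.symm z) := (BU.symm hP).scal μ z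
    change s (v, P.symm (scal μ z)) = _ * s (v, P.symm z)
    rw [h6]
    exact hs.homog μ v _
  · intro g v z
    have h6 : cj P ((((g : Grp n r).1, P⁻¹ * (g : Grp n r).2 * P)) : Grp n r) = (g : Grp n r) := by
      refine Prod.ext rfl ?_
      change P * (P⁻¹ * (g : Grp n r).2 * P) * P⁻¹ = (g : Grp n r).2
      group
    have h7 : ((((g : Grp n r).1, P⁻¹ * (g : Grp n r).2 * P)) : Grp n r) ∈ chg P Γ := by
      rw [mem_chg, h6]
      exact g.2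
    have h8 := hs.eq ⟨_, h7⟩ v (P.symm z)
    change s ((g : Grp n r).1 v, P.symm ((g : Grp n r).2 (P (P.symm z)))) = _ at h8
    rw [LinearEquiv.apply_symm_apply] at h8
    change s ((g : Grp n r).1 v, P.symm ((g : Grp n r).2 z)) = _
    rw [h8]
    congr 1
    change L.e ⟨cj P _, _⟩ v ^ M = L.e g v ^ M
    congr 3

end Pool.Agent.H896.IR
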