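import Pool.Agent.H896.IR.Scale
import Pool.Graph.R_pool_sql_team_seeded_707910d6.T2H08.FQ.Root
import Pool.Agent.H896.IQ.Core

/-!
# Isobaric polynomials and products of effective divisors
-/

set_option autoImplicit false

namespace Pool.Agent.H896.IR

open MvPolynomial MeasureTheory Pool.Agent.T2H08.FQ Pool.Agent.TH735.AQ Pool.Agent.H896.IQ

section Iso

variable {ι : Type} [Fintype ι]

/-- the weight of an exponent -/
def wt (w : ι → ℕ) (I : ι →₀ ℕ) : ℕ := ∑ s, w s * I s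

theorem wt_add (w : ι → ℕ) (I J : ι →₀ ℕ) : wt w (I + J) = wt w I + wt w J := by
  unfold wt
  rw [← Finset.sum_add_distrib]
  exact Finset.sum_congr rfl fun s _ => by rw [Finsupp.add_apply, mul_add]

/-- the polynomial with the variables multiplied by powers of a new variable -/
noncomputable def tw (w : ι → ℕ) :
    MvPolynomial ι ℂ →ₐ[ℂ] Polynomial (MvPolynomial ι ℂ) :=
  aeval fun s => Polynomial.C (X s) * Polynomial.X ^ w s

theorem tw_monomial (w : ι → ℕ) (I : ι →₀ ℕ) (a : ℂ) :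
    tw w (monomial I a) = Polynomial.C (monomial I a) * Polynomial.X ^ wt w I := by
  unfold tw
  rw [aeval_monomial, Finsupp.prod_fintype _ _ fun s => pow_zero _]
  have h1 : ∀ s, (Polynomial.C (X s) * Polynomial.X ^ w s : Polynomial (MvPolynomial ι ℂ)) ^ I s =
      Polynomial.C (X s ^ I s) * Polynomial.X ^ (w s * I s) := by
    intro s
    rw [mul_pow, ← map_pow, ← pow_mul]
  rw [Finset.prod_congr rfl fun s _ => h1 s, Finset.prod_mul_distrib, ← map_prod,
    Finset.prod_pow_eq_pow_sum, ← mul_assoc]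
  congr 1
  have h2 : (algebraMap ℂ (Polynomial (MvPolynomial ι ℂ))) a = Polynomial.C (C a) := rfl
  rw [h2, ← map_mul, monomial_eq, Finsupp.prod_fintype _ _ fun s => pow_zero _]

theorem coeff_tw (w : ι → ℕ) (p : MvPolynomial ι ℂ) (M : ℕ) (I : ι →₀ ℕ) :
    coeff I ((tw w p).coeff M) = if wt w I = M then coeff I p else 0 := by
  classical
  induction p using MvPolynomial.induction_on' with
  | monomial J a =>
    rw [tw_monomial, Polynomial.coeff_C_mul_X_pow]
    by_cases h : M = wt w J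
    · rw [if_pos h, coeff_monomial]
      by_cases h2 : J = I
      · subst h2
        rw [if_pos rfl, if_pos h.symm]
      · rw [if_neg h2]
        split_ifs <;> rfl
    · rw [if_neg h, coeff_zero, coeff_monomial]
      by_cases h2 : J = I
      · subst h2
        rw [if_neg (Ne.symm h)]
      · rw [if_neg h2]
        split_ifs <;> rfl
  | add p q hp hq =>
    rw [map_add, Polynomial.coeff_add, coeff_add, coeff_add, hp, hq]
    split_ifs <;> simp

theorem tw_ne_zero (w : ι → ℕ) {p : MvPolynomial ι ℂ} {I : ι →₀ ℕ} (h : coeff I p ≠ 0) :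
    (tw w p).coeff (wt w I) ≠ 0 := by
  intro h1
  have h2 := coeff_tw w p (wt w I) I
  rw [h1, coeff_zero, if_pos rfl] at h2
  exact h h2.symm

/-- Divisors of isobaric polynomials are isobaric. -/
theorem iso_of_dvd (w : ι → ℕ) {p q : MvPolynomial ι ℂ} (h : p ∣ q) (hq : q ≠ 0) {W : ℕ}
    (hW : ∀ I ∈ q.support, wt w I = W) :
    ∀ I ∈ p.support, ∀ J ∈ p.support, wt w I = wt w J := by
  obtain ⟨p', rfl⟩ := h
  obtain ⟨I0, hI0⟩ := MvPolynomial.support_nonempty.2 hq
  have h0 : tw w (p * p') ≠ 0 := by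
    intro h
    have h1 := tw_ne_zero w (mem_support_iff.1 hI0)
    rw [h, Polynomial.coeff_zero] at h1
    exact h1 rfl
  have hmul : tw w (p * p') = tw w p * tw w p' := map_mul _ _ _
  have hp0 : tw w p ≠ 0 := fun h => h0 (by rw [hmul, h, zero_mul])
  have hp0' : tw w p' ≠ 0 := fun h => h0 (by rw [hmul, h, mul_zero])
  have hsup : ∀ M, (tw w (p * p')).coeff M ≠ 0 → M = W := by
    intro M hM
    obtain ⟨I, hI⟩ := MvPolynomial.ne_zero_iff.1 hM
    rw [coeff_tw] at hI
    split_ifs at hI with h2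
    · rw [← h2]
      exact hW I (mem_support_iff.2 hI)
    · exact absurd rfl hI
  have h1 : (tw w (p * p')).natDegree = W := by
    refine hsup _ ?_
    rw [Polynomial.coeff_natDegree]
    exact Polynomial.leadingCoeff_ne_zero.2 h0
  have h2 : (tw w (p * p')).natTrailingDegree = W := by
    refine hsup _ ?_
    exact Polynomial.trailingCoeff_nonzero_iff_nonzero.2 h0
  rw [hmul, Polynomial.natDegree_mul hp0 hp0'] at h1
  rw [hmul, Polynomial.natTrailingDegree_mul hp0 hp0'] at h2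
  have h3 := Polynomial.natTrailingDegree_le_natDegree (tw w p)
  have h4 := Polynomial.natTrailingDegree_le_natDegree (tw w p')
  have h5 : ∀ I ∈ p.support, wt w I = (tw w p).natDegree := by
    intro I hI
    have h6 := tw_ne_zero w (mem_support_iff.1 hI)
    have h7 := Polynomial.le_natDegree_of_ne_zero h6
    have h8 := Polynomial.natTrailingDegree_le_of_ne_zero h6
    omega
  intro I hI J hJ
  rw [h5 I hI, h5 J hJ]

end Iso

variable {n c : ℕ} {r : Fin c → ℕ}

/-! ### Products of effective divisors -/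

theorem homog_mul {k k' : Fin c → ℕ} {p q : MvPolynomial (Co r) ℂ} (hp : IsHomog k p)
    (hq : IsHomog k' q) : IsHomog (fun j => k j + k' j) (p * q) := by
  classical
  intro I hI j
  obtain ⟨I1, h1, I2, h2, rfl⟩ := Finset.mem_add.1 (MvPolynomial.support_mul p q hI)
  simp only [Finsupp.add_apply]
  rw [Finset.sum_add_distrib, hp I1 h1 j, hq I2 h2 j]

theorem eff_mul {k k' : Fin c → ℕ} {β β' : (Fin n → ℂ) → MvPolynomial (Co r) ℂ}
    (h : IsEffective β k) (h' : IsEffective β' k') :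
    IsEffective (fun v => β v * β' v) (fun j => k j + k' j) := by
  classical
  refine ⟨fun I => ?_, fun v => homog_mul (h.homog v) (h'.homog v), ?_⟩
  · have h1 : (fun v => coeff I (β v * β' v)) =
        fun v => ∑ x ∈ Finset.HasAntidiagonal.antidiagonal I, coeff x.1 (β v) * coeff x.2 (β' v) :=
      _root_.funext fun v => coeff_mul _ _ _
    rw [h1]
    exact Differentiable.fun_sum fun x _ => (h.holo x.1).mul (h'.holo x.2)
  · obtain ⟨v1, hv1⟩ := h.ne_zero
    obtain ⟨v2, hv2⟩ := h'.ne_zero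
    obtain ⟨I1, hI1⟩ := MvPolynomial.ne_zero_iff.1 hv1
    obtain ⟨I2, hI2⟩ := MvPolynomial.ne_zero_iff.1 hv2
    obtain ⟨v, h3, h4⟩ := exists_common (h.holo I1) (h'.holo I2) ⟨v1, hI1⟩ ⟨v2, hI2⟩
    exact ⟨v, mul_ne_zero (fun h0 => h3 (by rw [h0, coeff_zero]))
      fun h0 => h4 (by rw [h0, coeff_zero])⟩

theorem eff_one : IsEffective (fun _ : Fin n → ℂ => (1 : MvPolynomial (Co r) ℂ)) (fun _ => 0) := by
  classical
  refine ⟨fun I => differentiable_const _, fun v I hI j => ?_, 0, one_ne_zero⟩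
  rw [mem_support_iff, coeff_one] at hI
  have h1 : I = 0 := by
    by_contra h
    rw [if_neg (Ne.symm h)] at hI
    exact hI rfl
  subst h1
  simp

theorem eff_pow {k : Fin c → ℕ} {β : (Fin n → ℂ) → MvPolynomial (Co r) ℂ}
    (h : IsEffective β k) (b : ℕ) : IsEffective (fun v => β v ^ b) (fun j => b * k j) := by
  induction b with
  | zero =>
    simp only [pow_zero, zero_mul]
    exact eff_one
  | succ b ih =>
    simp only [pow_succ, add_mul, one_mul]
    exact eff_mul ih h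

theorem eff_prod {N : ℕ} {κ : Fin N → Fin c → ℕ} {β : Fin N → (Fin n → ℂ) → MvPolynomial (Co r) ℂ}
    (h : ∀ i, IsEffective (β i) (κ i)) (b : Fin N → ℕ) (s : Finset (Fin N)) :
    IsEffective (fun v => ∏ i ∈ s, β i v ^ b i) (fun j => ∑ i ∈ s, b i * κ i j) := by
  classical
  induction s using Finset.induction_on with
  | empty =>
    simp only [Finset.prod_empty, Finset.sum_empty]
    exact eff_one
  | insert a s ha ih =>
    simp only [Finset.prod_insert ha, Finset.sum_insert ha]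
    exact eff_mul (eff_pow (h a) (b a)) ih

/-- All one-parameter groups which preserve the divisors of `β` and `σ` act trivially. -/
def Rigid (σ : MvPolynomial (Co r) ℂ) (β : (Fin n → ℂ) → MvPolynomial (Co r) ℂ) : Prop :=
  ∀ P : (Co r → ℂ) ≃ₗ[ℂ] (Co r → ℂ), BU (lm P) → ∀ (w : Co r → ℕ) (W W' : ℕ),
    (∀ J ∈ (sub P σ).support, wt w J = W') → (∀ v, ∀ I ∈ (sub P (β v)).support, wt w I = W) →
    ∀ j (i i' : Fin (r j + 1)), w ⟨j, i⟩ = w ⟨j, i'⟩

/-- If the product is isobaric then the factors are isobaric. -/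
theorem iso_factor {N : ℕ} {κ : Fin N → Fin c → ℕ}
    {β : Fin N → (Fin n → ℂ) → MvPolynomial (Co r) ℂ} (h : ∀ i, IsEffective (β i) (κ i))
    {b : Fin N → ℕ} (hb : ∀ i, 1 ≤ b i) {w : Co r → ℕ} {W : ℕ}
    (hW : ∀ v, ∀ I ∈ (∏ i, β i v ^ b i).support, wt w I = W) (i : Fin N) :
    ∃ W' : ℕ, ∀ v, ∀ I ∈ (β i v).support, wt w I = W' := by
  classical
  have h1 : ∀ i, ∃ I, ∃ v, coeff I (β i v) ≠ 0 := by
    intro i
    obtain ⟨v, hv⟩ := (h i).ne_zero
    obtain ⟨I, hI⟩ := MvPolynomial.ne_zero_iff.1 hv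
    exact ⟨I, v, hI⟩
  choose I0 hI0 using h1
  refine ⟨wt w (I0 i), fun v I hI => ?_⟩
  obtain ⟨v', h2, h3⟩ := exists_common ((h i).holo I)
    (differentiable_prod Finset.univ (fun i v => coeff (I0 i) (β i v)) fun i => (h i).holo (I0 i))
    ⟨v, mem_support_iff.1 hI⟩
    (exists_common_prod Finset.univ (fun i v => coeff (I0 i) (β i v))
      (fun i => (h i).holo (I0 i)) hI0)
  have h4 : ∀ i', coeff (I0 i') (β i' v') ≠ 0 := fun i' =>
    (Finset.prod_ne_zero_iff.1 h3) i' (Finset.mem_univ _)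
  have h5 : ∏ i, β i v' ^ b i ≠ 0 := Finset.prod_ne_zero_iff.2 fun i' _ =>
    pow_ne_zero _ fun h0 => h4 i' (by rw [h0, coeff_zero])
  have h6 : β i v' ∣ ∏ i, β i v' ^ b i :=
    (dvd_pow_self _ (Nat.one_le_iff_ne_zero.1 (hb i))).trans
      (Finset.dvd_prod_of_mem (fun i => β i v' ^ b i) (Finset.mem_univ i))
  exact iso_of_dvd w h6 h5 (hW v') I (mem_support_iff.2 h2) (I0 i) (mem_support_iff.2 (h4 i))

/-- multiples of the differences of two coordinates of a factor -/
theorem exists_N' {k l : Fin c → ℕ} {σ : MvPolynomial (Co r) ℂ}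
    {β : (Fin n → ℂ) → MvPolynomial (Co r) ℂ} (hβ : IsEffective β k) (hl : IsHomog l σ)
    (hσ0 : σ ≠ 0)
    (hrig : ∀ (w : Co r → ℕ) (W W' : ℕ), (∀ J ∈ σ.support, wt w J = W') →
      (∀ v, ∀ I ∈ (β v).support, wt w I = W) →
      ∀ j (i i' : Fin (r j + 1)), w ⟨j, i⟩ = w ⟨j, i'⟩) :
    ∃ N : ℕ, 1 ≤ N ∧ ∀ (j : Fin c) (i i' : Fin (r j + 1)),
      N • (Pi.single ⟨j, i⟩ 1 - Pi.single ⟨j, i'⟩ 1 : Co r → ℤ) ∈
        AddSubgroup.closure (Dif β σ) := by
  classical
  have h1 : ∀ x : (Σ j : Fin c, Fin (r j + 1) × Fin (r j + 1)), ∃ N : ℕ, 1 ≤ N ∧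
      N • (Pi.single ⟨x.1, x.2.1⟩ 1 - Pi.single ⟨x.1, x.2.2⟩ 1 : Co r → ℤ) ∈
        AddSubgroup.closure (Dif β σ) := by
    rintro ⟨j, i, i'⟩
    by_contra hcon
    push Not at hcon
    obtain ⟨w, hw, hw0⟩ := exists_form hcon
    obtain ⟨v1, hv1⟩ := hβ.ne_zero
    obtain ⟨I0, hI0⟩ := MvPolynomial.support_nonempty.2 hv1
    obtain ⟨J0, hJ0⟩ := MvPolynomial.support_nonempty.2 hσ0
    -- natural weights
    obtain ⟨D, hD, z, hz⟩ : ∃ D : ℕ, 1 ≤ D ∧ ∃ z : Co r → ℤ, ∀ s, (z s : ℚ) = D * w s := by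
      refine ⟨∏ s, (w s).den, Finset.prod_pos fun s _ => (w s).pos, ?_⟩
      have h2 : ∀ s, ∃ b : ℤ, (b : ℚ) = ((∏ s, (w s).den : ℕ) : ℚ) * w s := by
        intro s
        obtain ⟨t, ht⟩ := Finset.dvd_prod_of_mem (fun s => (w s).den) (Finset.mem_univ s)
        refine ⟨t * (w s).num, ?_⟩
        have h3 : (∏ s, (w s).den) = (w s).den * t := ht
        rw [h3]
        push_cast
        have h4 : ((w s).den : ℚ) * w s = (w s).num := by
          rw [mul_comm]
          exact Rat.mul_den_eq_num (w s)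
        linear_combination -(t : ℚ) * h4
      choose z hz using h2
      exact ⟨z, hz⟩
    obtain ⟨C, hC⟩ : ∃ C : ℕ, ∀ s, 0 ≤ z s + C := by
      refine ⟨∑ s, (z s).natAbs, fun s => ?_⟩
      have h2 : (z s).natAbs ≤ ∑ s, (z s).natAbs :=
        Finset.single_le_sum (f := fun s => (z s).natAbs) (fun _ _ => Nat.zero_le _)
          (Finset.mem_univ s)
      omega
    obtain ⟨y, hy⟩ : ∃ y : Co r → ℕ, ∀ s, (y s : ℚ) = D * w s + C := by
      refine ⟨fun s => (z s + C).toNat, fun s => ?_⟩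
      have h2 := Int.toNat_of_nonneg (hC s)
      have h3 : (((z s + C).toNat : ℤ) : ℚ) = ((z s + C : ℤ) : ℚ) := by rw [h2]
      push_cast at h3
      rw [← hz]
      exact h3
    have hwt : ∀ I : Co r →₀ ℕ, (wt y I : ℚ) = D * (∑ s, w s * I s) + C * ∑ s, (I s : ℚ) := by
      intro I
      unfold wt
      push_cast
      rw [Finset.mul_sum, Finset.mul_sum, ← Finset.sum_add_distrib]
      refine Finset.sum_congr rfl fun s _ => ?_
      rw [hy]
      ring
    have hsum : ∀ (e : Fin c → ℕ) (I : Co r →₀ ℕ), (∀ j, ∑ i, I ⟨j, i⟩ = e j) →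
        ∑ s, (I s : ℚ) = ∑ j, (e j : ℚ) := by
      intro e I hI
      rw [Fintype.sum_sigma]
      refine Finset.sum_congr rfl fun j _ => ?_
      rw [← hI j, Nat.cast_sum]
    have h2 := hrig y (wt y I0) (wt y J0)
      (fun J hJ => by
        have h3 := hw (fun s => (J s : ℤ) - J0 s) (Or.inr ⟨J, hJ, J0, hJ0, rfl⟩)
        push_cast at h3
        simp only [mul_sub] at h3
        rw [Finset.sum_sub_distrib, sub_eq_zero] at h3
        have h4 : (wt y J : ℚ) = wt y J0 := by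
          rw [hwt, hwt, h3, hsum l J (hl J hJ), hsum l J0 (hl J0 hJ0)]
        exact_mod_cast h4)
      (fun v I hI => by
        have h3 := hw (fun s => (I s : ℤ) - I0 s) (Or.inl ⟨I, I0, ⟨v, mem_support_iff.1 hI⟩,
          ⟨v1, mem_support_iff.1 hI0⟩, rfl⟩)
        push_cast at h3
        simp only [mul_sub] at h3
        rw [Finset.sum_sub_distrib, sub_eq_zero] at h3
        have h4 : (wt y I : ℚ) = wt y I0 := by
          rw [hwt, hwt, h3, hsum k I (hβ.homog v I hI), hsum k I0 (hβ.homog v1 I0 hI0)]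
        exact_mod_cast h4) j i i'
    apply hw0
    have h3 : w ⟨j, i⟩ = w ⟨j, i'⟩ := by
      have h4 : (y ⟨j, i⟩ : ℚ) = y ⟨j, i'⟩ := by rw [h2]
      rw [hy, hy] at h4
      have h5 : (D : ℚ) ≠ 0 := by positivity
      exact mul_left_cancel₀ h5 (add_right_cancel h4)
    have h4 : ∀ x : Co r, ∑ s, w s * ((Pi.single x 1 : Co r → ℤ) s : ℚ) = w x := by
      intro x
      rw [Finset.sum_eq_single x (fun s _ hs => by rw [Pi.single_eq_of_ne hs]; simp)
        (fun h => absurd (Finset.mem_univ _) h), Pi.single_eq_same]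
      simp
    have h5 : ∑ s, w s * (((Pi.single ⟨j, i⟩ 1 - Pi.single ⟨j, i'⟩ 1 : Co r → ℤ) s : ℤ) : ℚ) =
        (∑ s, w s * ((Pi.single ⟨j, i⟩ 1 : Co r → ℤ) s : ℚ)) -
          ∑ s, w s * ((Pi.single ⟨j, i'⟩ 1 : Co r → ℤ) s : ℚ) := by
      rw [← Finset.sum_sub_distrib]
      refine Finset.sum_congr rfl fun s _ => ?_
      rw [Pi.sub_apply]
      push_cast
      ring
    rw [h5, h4, h4, h3, sub_self]
  choose N hN1 hN using h1
  refine ⟨∏ x, N x, Nat.succ_le_of_lt (Finset.prod_pos fun x _ => hN1 x), fun j i i' => ?_⟩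
  obtain ⟨M, hM⟩ := Finset.dvd_prod_of_mem N (Finset.mem_univ (⟨j, i, i'⟩ :
    Σ j : Fin c, Fin (r j + 1) × Fin (r j + 1)))
  rw [hM, mul_comm, mul_smul]
  exact nsmul_mem (hN _) M

end Pool.Agent.H896.IR
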