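import Pool.Graph.R_pool_sql_team_seeded_707910d6.T2H08.FQ.Wt
import Pool.Graph.R_pool_sql_team_seeded_707910d6.T2H08.FQ.Norm
import Pool.Graph.R_seed8.TH735.AQ.Mero

/-!
# Klt pairs with real coefficients and one-parameter groups
-/

set_option autoImplicit false

namespace Pool.Agent.H896.IR

open MvPolynomial MeasureTheory Pool.Agent.T2H08.FQ Pool.Agent.TH735.AQ

variable {n c : ℕ} {r : Fin c → ℕ}

/-- the pair with the real coefficients `d i` is klt -/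
def KltR {N : ℕ} (ρ : (Fin n → ℂ) → ℂ) (σ : MvPolynomial (Co r) ℂ) (d : Fin N → ℝ)
    (β : Fin N → (Fin n → ℂ) → MvPolynomial (Co r) ℂ) : Prop :=
  LocallyIntegrableOn
    (fun p : (Fin n → ℂ) × (Co r → ℂ) =>
      ‖ρ p.1 * eval p.2 σ‖ ^ 2 * ∏ i, ‖eval p.2 (β i p.1)‖ ^ (-(2 * d i)))
    {p | IsPt p.2}

/-- finitely many entire functions which are not zero have a common point where they are not zero -/
theorem exists_common_prod {E : Type*} [NormedAddCommGroup E] [NormedSpace ℂ E] {ι : Type*}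
    (s : Finset ι) (f : ι → E → ℂ) (hf : ∀ i, Differentiable ℂ (f i)) (h : ∀ i, ∃ v, f i v ≠ 0) :
    ∃ v, ∏ i ∈ s, f i v ≠ 0 := by
  classical
  induction s using Finset.induction_on with
  | empty => exact ⟨0, by simp⟩
  | insert i t hi ih =>
    obtain ⟨v, h1, h2⟩ := exists_common (hf i) (differentiable_prod t f hf) (h i) ih
    exact ⟨v, by
      rw [Finset.prod_insert hi]
      exact mul_ne_zero h1 h2⟩

theorem exists_eval_ne {p : MvPolynomial (Co r) ℂ} (hp : p ≠ 0) : ∃ z, eval z p ≠ 0 := by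
  by_contra hcon
  push Not at hcon
  exact hp (MvPolynomial.funext fun z => by rw [hcon, map_zero])

/-- The consequence of klt for dilations which multiply the functions with constants. -/
theorem klt_scale {N : ℕ} {ρ : (Fin n → ℂ) → ℂ} {σ : MvPolynomial (Co r) ℂ} {l : Fin c → ℕ}
    {κ : Fin N → Fin c → ℕ} {d : Fin N → ℝ}
    {β : Fin N → (Fin n → ℂ) → MvPolynomial (Co r) ℂ} (hρ : Differentiable ℂ ρ)
    (hβ : ∀ i, IsEffective (β i) (κ i)) (hl : IsHomog l σ) (hρ0 : ∃ v, ρ v ≠ 0) (hσ0 : σ ≠ 0)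
    (hklt : KltR ρ σ d β) {a : Co r → ℝ} (ha : ∀ s, 0 < a s)
    (ha1 : ∀ s, a s ≤ 1) (hblk : ∀ j, ∃ i, a ⟨j, i⟩ = 1) (hlt : ∃ s, a s < 1) {A : ℝ}
    {B : Fin N → ℝ} (hA : 0 < A) (hB : ∀ i, 0 < B i)
    (hσ : ∀ z : Co r → ℂ, eval (fun s => (a s : ℂ) * z s) σ = A * eval z σ)
    (hβa : ∀ i v (z : Co r → ℂ), eval (fun s => (a s : ℂ) * z s) (β i v) =
      B i * eval z (β i v)) :
    A ^ 2 * (∏ i, B i ^ (-(2 * d i))) * (∏ s, a s) ^ 2 < 1 := by
  classical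
  obtain ⟨s0, hs0⟩ := hlt
  obtain ⟨D, hDdef⟩ : ∃ D : Set ((Fin n → ℂ) × (Co r → ℂ)), D = {p | ‖p.1‖ ≤ 1 ∧
      ∀ s, (a s = 1 → 1 ≤ ‖p.2 s‖ ∧ ‖p.2 s‖ ≤ 2) ∧ (a s < 1 → ‖p.2 s‖ ≤ 1)} := ⟨_, rfl⟩
  obtain ⟨U, hUdef⟩ : ∃ U : Set ((Fin n → ℂ) × (Co r → ℂ)), U = {p | ‖p.1‖ < 1 ∧
      ∀ s, (a s = 1 → 1 < ‖p.2 s‖ ∧ ‖p.2 s‖ < 2) ∧ (a s < 1 → a s < ‖p.2 s‖ ∧ ‖p.2 s‖ < 1)} :=
    ⟨_, rfl⟩
  have hc1 : Continuous fun p : (Fin n → ℂ) × (Co r → ℂ) => ‖p.1‖ := continuous_fst.norm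
  have hc2 : ∀ s, Continuous fun p : (Fin n → ℂ) × (Co r → ℂ) => ‖p.2 s‖ := fun s =>
    ((continuous_apply s).comp continuous_snd).norm
  have hDc : IsCompact D := by
    have hcl : IsClosed D := by
      have h1 : D = {p | ‖p.1‖ ≤ 1} ∩ ⋂ s, {p | (a s = 1 → 1 ≤ ‖p.2 s‖ ∧ ‖p.2 s‖ ≤ 2) ∧
          (a s < 1 → ‖p.2 s‖ ≤ 1)} := by
        rw [hDdef]
        ext p
        simp
      rw [h1]
      refine IsClosed.inter (isClosed_le hc1 continuous_const) (isClosed_iInter fun s => ?_)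
      rcases eq_or_ne (a s) 1 with h2 | h2
      · simp only [h2, forall_const, lt_irrefl, false_imp_iff, and_true]
        exact (isClosed_le continuous_const (hc2 s)).inter (isClosed_le (hc2 s) continuous_const)
      · have h3 : a s < 1 := lt_of_le_of_ne (ha1 s) h2
        simp only [h2, h3, forall_const, false_imp_iff, true_and]
        exact isClosed_le (hc2 s) continuous_const
    refine Metric.isCompact_of_isClosed_isBounded hcl ?_
    refine (Metric.isBounded_closedBall (x := (0 : (Fin n → ℂ) × (Co r → ℂ))) (r := 2)).subset ?_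
    intro p hp
    rw [hDdef] at hp
    rw [mem_closedBall_zero_iff, Prod.norm_def]
    refine max_le (hp.1.trans (by norm_num)) ?_
    rw [pi_norm_le_iff_of_nonneg (by norm_num)]
    intro s
    rcases eq_or_ne (a s) 1 with h2 | h2
    · exact ((hp.2 s).1 h2).2
    · exact ((hp.2 s).2 (lt_of_le_of_ne (ha1 s) h2)).trans (by norm_num)
  have hUo : IsOpen U := by
    have h1 : U = {p | ‖p.1‖ < 1} ∩ ⋂ s, {p | (a s = 1 → 1 < ‖p.2 s‖ ∧ ‖p.2 s‖ < 2) ∧
        (a s < 1 → a s < ‖p.2 s‖ ∧ ‖p.2 s‖ < 1)} := by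
      rw [hUdef]
      ext p
      simp
    rw [h1]
    refine IsOpen.inter (isOpen_lt hc1 continuous_const) (isOpen_iInter_of_finite fun s => ?_)
    rcases eq_or_ne (a s) 1 with h2 | h2
    · simp only [h2, forall_const, lt_irrefl, false_imp_iff, and_true]
      exact (isOpen_lt continuous_const (hc2 s)).inter (isOpen_lt (hc2 s) continuous_const)
    · have h3 : a s < 1 := lt_of_le_of_ne (ha1 s) h2
      simp only [h2, h3, forall_const, false_imp_iff, true_and]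
      exact (isOpen_lt continuous_const (hc2 s)).inter (isOpen_lt (hc2 s) continuous_const)
  have hUne : U.Nonempty := by
    obtain ⟨y, hy⟩ : ∃ y : Co r → ℂ, ∀ s,
        y s = if a s = 1 then ((3 / 2 : ℝ) : ℂ) else (((a s + 1) / 2 : ℝ) : ℂ) := ⟨_, fun _ => rfl⟩
    have hy1 : ∀ s, a s = 1 → ‖y s‖ = 3 / 2 := fun s h => by
      rw [hy, if_pos h, Complex.norm_real, Real.norm_eq_abs, abs_of_pos (by norm_num)]
    have hy2 : ∀ s, a s < 1 → ‖y s‖ = (a s + 1) / 2 := fun s h => by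
      have h4 := ha s
      rw [hy, if_neg h.ne, Complex.norm_real, Real.norm_eq_abs, abs_of_pos (by linarith)]
    refine ⟨(0, y), ?_⟩
    rw [hUdef]
    refine ⟨by rw [norm_zero]; norm_num, fun s => ⟨fun h => ?_, fun h => ?_⟩⟩
    · change 1 < ‖y s‖ ∧ ‖y s‖ < 2
      rw [hy1 s h]
      constructor <;> norm_num
    · change a s < ‖y s‖ ∧ ‖y s‖ < 1
      rw [hy2 s h]
      constructor <;> linarith
  have hUD : U ⊆ D := by
    intro p hp
    rw [hUdef] at hp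
    rw [hDdef]
    exact ⟨hp.1.le, fun s => ⟨fun h => ⟨((hp.2 s).1 h).1.le, ((hp.2 s).1 h).2.le⟩,
      fun h => ((hp.2 s).2 h).2.le⟩⟩
  have hDD : dil n a '' D ⊆ D := by
    rintro _ ⟨p, hp, rfl⟩
    rw [hDdef] at hp ⊢
    rw [dil_apply]
    refine ⟨hp.1, fun s => ⟨fun h => ?_, fun h => ?_⟩⟩
    · change 1 ≤ ‖(a s : ℂ) * p.2 s‖ ∧ ‖(a s : ℂ) * p.2 s‖ ≤ 2
      rw [h, Complex.ofReal_one, one_mul]
      exact (hp.2 s).1 h
    · change ‖(a s : ℂ) * p.2 s‖ ≤ 1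
      rw [norm_mul, Complex.norm_real, Real.norm_eq_abs, abs_of_pos (ha s)]
      have h2 := (hp.2 s).2 h
      have h3 := norm_nonneg (p.2 s)
      nlinarith [ha s]
  have hdis : Disjoint U (dil n a '' D) := by
    rw [Set.disjoint_left]
    rintro q hq ⟨p, hp, rfl⟩
    rw [hUdef] at hq
    rw [hDdef] at hp
    have h1 := ((hq.2 s0).2 hs0).1
    rw [dil_apply] at h1
    change a s0 < ‖(a s0 : ℂ) * p.2 s0‖ at h1
    rw [norm_mul, Complex.norm_real, Real.norm_eq_abs, abs_of_pos (ha s0)] at h1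
    have h2 := (hp.2 s0).2 hs0
    nlinarith [ha s0]
  have hDP : D ⊆ {p | IsPt p.2} := by
    intro p hp j
    rw [hDdef] at hp
    obtain ⟨i, hi⟩ := hblk j
    refine ⟨i, fun h => ?_⟩
    have h1 := ((hp.2 ⟨j, i⟩).1 hi).1
    rw [h, norm_zero] at h1
    linarith
  have hfD := hklt.integrableOn_compact_subset hDP hDc
  have hBp : 0 < ∏ i, B i ^ (-(2 * d i)) := Finset.prod_pos fun i _ => Real.rpow_pos_of_pos (hB i) _
  have ht : 0 < A ^ 2 * ∏ i, B i ^ (-(2 * d i)) := mul_pos (pow_pos hA 2) hBp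
  refine scale_lt ha ht ?_ hDc hfD hDD hUD hdis ?_
  · intro p
    rw [dil_apply]
    change ‖ρ p.1 * eval (fun s => (a s : ℂ) * p.2 s) σ‖ ^ 2 *
      ∏ i, ‖eval (fun s => (a s : ℂ) * p.2 s) (β i p.1)‖ ^ (-(2 * d i)) = _
    have h1 : ∀ i, ‖eval (fun s => (a s : ℂ) * p.2 s) (β i p.1)‖ ^ (-(2 * d i)) =
        B i ^ (-(2 * d i)) * ‖eval p.2 (β i p.1)‖ ^ (-(2 * d i)) := by
      intro i
      rw [hβa, norm_mul, Complex.norm_real, Real.norm_eq_abs, abs_of_pos (hB i),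
        Real.mul_rpow (hB i).le (norm_nonneg _)]
    rw [Finset.prod_congr rfl fun i _ => h1 i, Finset.prod_mul_distrib, hσ, norm_mul, norm_mul,
      Complex.norm_real, Real.norm_eq_abs, abs_of_pos hA, norm_mul]
    ring
  · intro h0
    have hG1 : Differentiable ℂ fun p : (Fin n → ℂ) × (Co r → ℂ) => eval p.2 σ :=
      holo_eval (n := n) (β := fun _ => σ) (fun I => differentiable_const _) fun _ => hl
    have hG2 := fun i => holo_eval (hβ i).holo (hβ i).homog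
    have hG3 : Differentiable ℂ fun p : (Fin n → ℂ) × (Co r → ℂ) => ∏ i, eval p.2 (β i p.1) :=
      differentiable_prod Finset.univ _ hG2
    have hG : Differentiable ℂ fun p : (Fin n → ℂ) × (Co r → ℂ) =>
        ρ p.1 * eval p.2 σ * ∏ i, eval p.2 (β i p.1) :=
      ((hρ.comp differentiable_fst).mul hG1).mul hG3
    have hmeas : Measurable fun p : (Fin n → ℂ) × (Co r → ℂ) =>
        ENNReal.ofReal (‖ρ p.1 * eval p.2 σ‖ ^ 2 *
          ∏ i, ‖eval p.2 (β i p.1)‖ ^ (-(2 * d i))) := by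
      refine ENNReal.measurable_ofReal.comp (Measurable.mul ?_ ?_)
      · exact (((hρ.comp differentiable_fst).mul hG1).continuous.norm.pow 2).measurable
      · refine Finset.measurable_fun_prod _ fun i _ => ?_
        exact ((hG2 i).continuous.norm.measurable).pow_const _
    rw [lintegral_eq_zero_iff hmeas] at h0
    have h1 : (fun p : (Fin n → ℂ) × (Co r → ℂ) => ρ p.1 * eval p.2 σ * ∏ i, eval p.2 (β i p.1))
        =ᵐ[volume.restrict U] fun _ => 0 := by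
      filter_upwards [h0] with p hp
      by_contra hne
      have h2 := left_ne_zero_of_mul hne
      have h3 := right_ne_zero_of_mul hne
      have h4 : 0 < ‖ρ p.1 * eval p.2 σ‖ ^ 2 * ∏ i, ‖eval p.2 (β i p.1)‖ ^ (-(2 * d i)) :=
        mul_pos (pow_pos (norm_pos_iff.2 h2) 2) (Finset.prod_pos fun i _ =>
          Real.rpow_pos_of_pos (norm_pos_iff.2 ((Finset.prod_ne_zero_iff.1 h3) i
            (Finset.mem_univ _))) _)
      have h5 : ENNReal.ofReal (‖ρ p.1 * eval p.2 σ‖ ^ 2 *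
        ∏ i, ‖eval p.2 (β i p.1)‖ ^ (-(2 * d i))) = 0 := hp
      rw [ENNReal.ofReal_eq_zero] at h5
      linarith
    have h2 := Measure.eqOn_open_of_ae_eq h1 hUo hG.continuous.continuousOn
      continuousOn_const
    obtain ⟨v0, hv0⟩ := hρ0
    obtain ⟨z0, hz0⟩ := exists_eval_ne hσ0
    have hG4 : Differentiable ℂ fun p : (Fin n → ℂ) × (Co r → ℂ) => ρ p.1 * eval p.2 σ :=
      (hρ.comp differentiable_fst).mul hG1
    obtain ⟨q, hq1, hq2⟩ := exists_common hG4 hG3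
      ⟨((v0, z0) : (Fin n → ℂ) × (Co r → ℂ)), mul_ne_zero hv0 hz0⟩
      (exists_common_prod Finset.univ (fun i (p : (Fin n → ℂ) × (Co r → ℂ)) =>
        eval p.2 (β i p.1)) hG2 fun i => by
          obtain ⟨v, hv⟩ := (hβ i).ne_zero
          obtain ⟨z, hz⟩ := exists_eval_ne hv
          exact ⟨(v, z), hz⟩)
    have h6 := holo_zero hG hUo hUne (fun p hp => h2 hp) q
    exact mul_ne_zero hq1 hq2 h6

section

variable {N : ℕ} {ρ : (Fin n → ℂ) → ℂ} {σ : MvPolynomial (Co r) ℂ} {l : Fin c → ℕ}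
  {κ : Fin N → Fin c → ℕ} {d : Fin N → ℝ} {β : Fin N → (Fin n → ℂ) → MvPolynomial (Co r) ℂ}

/-- The discrepancy of a monomial valuation in the direction of a one-parameter group. -/
theorem disc_pos (hρ : Differentiable ℂ ρ) (hβ : ∀ i, IsEffective (β i) (κ i)) (hl : IsHomog l σ)
    (hρ0 : ∃ v, ρ v ≠ 0) (hσ0 : σ ≠ 0) (hklt : KltR ρ σ d β) {u : Co r → ℝ}
    (hu : ∀ s, 0 ≤ u s) (hblk : ∀ j, ∃ i, u ⟨j, i⟩ = 0) (hne : ∃ s, u s ≠ 0) {U : Fin N → ℝ}
    {U' : ℝ} (hU' : ∀ J ∈ σ.support, ∑ s, u s * J s = U')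
    (hU : ∀ i v, ∀ I ∈ (β i v).support, ∑ s, u s * I s = U i) :
    0 < U' - (∑ i, d i * U i) + ∑ s, u s := by
  have hh : (0 : ℝ) < 1 / 2 := by norm_num
  have h1 := klt_scale hρ hβ hl hρ0 hσ0 hklt (a := fun s => (1 / 2 : ℝ) ^ u s)
    (fun s => Real.rpow_pos_of_pos hh _)
    (fun s => Real.rpow_le_one hh.le (by norm_num) (hu s))
    (fun j => by
      obtain ⟨i, hi⟩ := hblk j
      exact ⟨i, by simp only [hi, Real.rpow_zero]⟩)
    (by
      obtain ⟨s, hs⟩ := hne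
      exact ⟨s, Real.rpow_lt_one hh.le (by norm_num) (lt_of_le_of_ne (hu s) hs.symm)⟩)
    (A := (1 / 2 : ℝ) ^ U') (B := fun i => (1 / 2 : ℝ) ^ U i) (Real.rpow_pos_of_pos hh _)
    (fun i => Real.rpow_pos_of_pos hh _) (fun z => eval_dil hU' z)
    (fun i v z => eval_dil (hU i v) z)
  have h3 : ∏ i, ((1 / 2 : ℝ) ^ U i) ^ (-(2 * d i)) = (1 / 2 : ℝ) ^ (-(2 * ∑ i, d i * U i)) := by
    have h4 : -(2 * ∑ i, d i * U i) = ∑ i, U i * -(2 * d i) := by
      rw [Finset.mul_sum, ← Finset.sum_neg_distrib]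
      refine Finset.sum_congr rfl fun i _ => ?_
      ring
    rw [h4, Real.rpow_sum_of_pos hh]
    refine Finset.prod_congr rfl fun i _ => ?_
    rw [← Real.rpow_mul hh.le]
  have h2 : ((1 / 2 : ℝ) ^ U') ^ 2 * (∏ i, ((1 / 2 : ℝ) ^ U i) ^ (-(2 * d i))) *
      (∏ s, (1 / 2 : ℝ) ^ u s) ^ 2 = (1 / 2 : ℝ) ^ (2 * (U' - (∑ i, d i * U i) + ∑ s, u s)) := by
    rw [h3, ← Real.rpow_sum_of_pos hh, ← Real.rpow_natCast, ← Real.rpow_natCast,
      ← Real.rpow_mul hh.le, ← Real.rpow_mul hh.le, ← Real.rpow_add hh, ← Real.rpow_add hh]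
    congr 1
    push_cast
    ring
  rw [h2] at h1
  by_contra hcon
  push Not at hcon
  have h3 : (1 : ℝ) ≤ (1 / 2 : ℝ) ^ (2 * (U' - (∑ i, d i * U i) + ∑ s, u s)) :=
    Real.one_le_rpow_of_pos_of_le_one_of_nonpos hh (by norm_num) (by linarith)
  linarith

/-- A one-parameter group which preserves a klt pair with nef log canonical divisor acts trivially. -/
theorem weight_const (hρ : Differentiable ℂ ρ) (hβ : ∀ i, IsEffective (β i) (κ i))
    (hl : IsHomog l σ) (hρ0 : ∃ v, ρ v ≠ 0) (hσ0 : σ ≠ 0) (hklt : KltR ρ σ d β)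
    (hk : ∀ j, (l j : ℝ) + (r j + 1) ≤ ∑ i, d i * κ i j) {w : Co r → ℝ} {W : Fin N → ℝ} {W' : ℝ}
    (hW' : ∀ J ∈ σ.support, ∑ s, w s * J s = W')
    (hW : ∀ i v, ∀ I ∈ (β i v).support, ∑ s, w s * I s = W i) (j : Fin c)
    (i i' : Fin (r j + 1)) : w ⟨j, i⟩ = w ⟨j, i'⟩ := by
  classical
  have hmx : ∀ j, ∃ i, ∀ i', w ⟨j, i'⟩ ≤ w ⟨j, i⟩ := fun j => by
    obtain ⟨i, -, hi⟩ := Finset.exists_max_image Finset.univ (fun i => w ⟨j, i⟩)
      (Finset.univ_nonempty (α := Fin (r j + 1)))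
    exact ⟨i, fun i' => hi i' (Finset.mem_univ _)⟩
  have hmn : ∀ j, ∃ i, ∀ i', w ⟨j, i⟩ ≤ w ⟨j, i'⟩ := fun j => by
    obtain ⟨i, -, hi⟩ := Finset.exists_min_image Finset.univ (fun i => w ⟨j, i⟩)
      (Finset.univ_nonempty (α := Fin (r j + 1)))
    exact ⟨i, fun i' => hi i' (Finset.mem_univ _)⟩
  choose x hx using hmx
  choose y hy using hmn
  by_contra hne
  obtain ⟨X, hX⟩ : ∃ X : Fin c → ℝ, ∀ j, X j = w ⟨j, x j⟩ := ⟨_, fun _ => rfl⟩
  obtain ⟨Y, hY⟩ : ∃ Y : Fin c → ℝ, ∀ j, Y j = w ⟨j, y j⟩ := ⟨_, fun _ => rfl⟩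
  have hwX : ∀ s : Co r, w s ≤ X s.1 := fun s => by rw [hX]; exact hx s.1 s.2
  have hYw : ∀ s : Co r, Y s.1 ≤ w s := fun s => by rw [hY]; exact hy s.1 s.2
  -- sums over the blocks
  have hblock : ∀ (Z : Fin c → ℝ) (e : Fin c → ℕ) (J : Co r →₀ ℕ),
      (∀ j, ∑ i, J ⟨j, i⟩ = e j) → ∑ s : Co r, Z s.1 * J s = ∑ j, Z j * e j := by
    intro Z e J hJ
    rw [Fintype.sum_sigma]
    refine Finset.sum_congr rfl fun j _ => ?_
    rw [← hJ j, Nat.cast_sum, Finset.mul_sum]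
  have hone : ∀ Z : Fin c → ℝ, ∑ s : Co r, Z s.1 = ∑ j, Z j * (r j + 1) := by
    intro Z
    rw [Fintype.sum_sigma]
    refine Finset.sum_congr rfl fun j _ => ?_
    change ∑ _y : Fin (r j + 1), Z j = _
    rw [Finset.sum_const, Finset.card_univ, Fintype.card_fin, nsmul_eq_mul]
    push_cast
    ring
  have h1 := disc_pos hρ hβ hl hρ0 hσ0 hklt (u := fun s => w s - Y s.1)
    (fun s => sub_nonneg.2 (hYw s)) (fun j => ⟨y j, by simp only [hY, sub_self]⟩)
    (by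
      by_contra hcon
      push Not at hcon
      apply hne
      have h2 := hcon ⟨j, i⟩
      have h3 := hcon ⟨j, i'⟩
      linarith)
    (U := fun i => W i - ∑ j, Y j * κ i j) (U' := W' - ∑ j, Y j * l j)
    (fun J hJ => by
      simp only [sub_mul]
      rw [Finset.sum_sub_distrib, hW' J hJ, hblock Y l J (hl J hJ)])
    (fun i v I hI => by
      simp only [sub_mul]
      rw [Finset.sum_sub_distrib, hW i v I hI, hblock Y (κ i) I ((hβ i).homog v I hI)])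
  have h2 := disc_pos hρ hβ hl hρ0 hσ0 hklt (u := fun s => X s.1 - w s)
    (fun s => sub_nonneg.2 (hwX s)) (fun j => ⟨x j, by simp only [hX, sub_self]⟩)
    (by
      by_contra hcon
      push Not at hcon
      apply hne
      have h2 := hcon ⟨j, i⟩
      have h3 := hcon ⟨j, i'⟩
      linarith)
    (U := fun i => (∑ j, X j * κ i j) - W i) (U' := (∑ j, X j * l j) - W')
    (fun J hJ => by
      simp only [sub_mul]
      rw [Finset.sum_sub_distrib, hW' J hJ, hblock X l J (hl J hJ)])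
    (fun i v I hI => by
      simp only [sub_mul]
      rw [Finset.sum_sub_distrib, hW i v I hI, hblock X (κ i) I ((hβ i).homog v I hI)])
  rw [Finset.sum_sub_distrib, hone] at h1 h2
  have h3 : ∀ j, (X j - Y j) * (l j + (r j + 1)) ≤ (X j - Y j) * ∑ i, d i * κ i j := by
    intro j
    refine mul_le_mul_of_nonneg_left (hk j) ?_
    have h4 := hwX ⟨j, 0⟩
    have h5 := hYw ⟨j, 0⟩
    simp only at h4 h5
    linarith
  have h4 := Finset.sum_le_sum fun j (_ : j ∈ Finset.univ) => h3 j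
  have h5 : ∑ j, (X j - Y j) * ((l j : ℝ) + (r j + 1)) =
      (∑ j, X j * l j) - (∑ j, Y j * l j) + ((∑ j, X j * ((r j : ℝ) + 1)) -
        ∑ j, Y j * ((r j : ℝ) + 1)) := by
    rw [← Finset.sum_sub_distrib, ← Finset.sum_sub_distrib, ← Finset.sum_add_distrib]
    refine Finset.sum_congr rfl fun j _ => ?_
    ring
  have h6 : ∑ j, (X j - Y j) * ∑ i, d i * (κ i j : ℝ) =
      ∑ i, d i * ((∑ j, X j * (κ i j : ℝ)) - ∑ j, Y j * κ i j) := by
    simp only [Finset.mul_sum, ← Finset.sum_sub_distrib]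
    rw [Finset.sum_comm]
    refine Finset.sum_congr rfl fun i _ => Finset.sum_congr rfl fun j _ => ?_
    ring
  rw [h5, h6] at h4
  have h7 : (∑ i, d i * (W i - ∑ j, Y j * (κ i j : ℝ))) +
      ∑ i, d i * ((∑ j, X j * (κ i j : ℝ)) - W i) =
      ∑ i, d i * ((∑ j, X j * (κ i j : ℝ)) - ∑ j, Y j * (κ i j : ℝ)) := by
    rw [← Finset.sum_add_distrib]
    refine Finset.sum_congr rfl fun i _ => ?_
    ring
  linarith

end

end Pool.Agent.H896.IR
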