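import Pool.Agent.H896.IQ.Stmt

/-!
# Pairs with real coefficients on compact quotients of `ℂ^n × P^{r_1} × ... × P^{r_c}` by isometries

See `Pool.Agent.H896.IQ.Stmt` for the groups, the line bundles and the ramification divisor.
-/

set_option autoImplicit false

namespace Pool.Agent.H896.IG

open MvPolynomial Pool.Agent.T2H08.FB

variable {n c : ℕ} {r : Fin c → ℕ}

/-- `β` defines the pullback to `V × F` of an effective Cartier divisor on `X`, and `D` is the line bundle
of this divisor: `β` is a section of `D`. -/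
structure IsCartier {Γ : Subgroup (Trans n r)} (D : LineBundle Γ)
    (β : (Fin n → ℂ) → MvPolynomial (Co r) ℂ) (κ : Fin c → ℕ) : Prop where
  effective : IsEffective β κ
  deg : ∀ j, D.deg j = κ j
  eq : ∀ g ∈ Γ, ∀ v z, eval (onZ g z) (β (onV g v)) = D.e g v * eval z (β v)

/-- The pair `(X, B)`, `B = ∑ d i D_i`, is klt: `|ρ σ|² / ∏ |β_i| ^ (2 d i)` is locally integrable on the
set of the `(v, z)` which give points of `V × F`, where `β_i` defines the pullback of `D_i`. -/
def IsKltReal {N : ℕ} (ρ : (Fin n → ℂ) → ℂ) (σ : MvPolynomial (Co r) ℂ) (d : Fin N → ℝ)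
    (β : Fin N → (Fin n → ℂ) → MvPolynomial (Co r) ℂ) : Prop :=
  MeasureTheory.LocallyIntegrableOn
    (fun p : (Fin n → ℂ) × (Co r → ℂ) =>
      ‖ρ p.1 * eval p.2 σ‖ ^ 2 * ∏ i, ‖eval p.2 (β i p.1)‖ ^ (-(2 * d i)))
    {p | IsPt p.2}

theorem zpow_sum_mul {ι : Type*} (s : Finset ι) (u : ℂˣ) (x : ι → ℤ) :
    (u : ℂ) ^ (∑ i ∈ s, x i) = ∏ i ∈ s, (u : ℂ) ^ x i := by
  classical
  induction s using Finset.induction_on with
  | empty => simp
  | insert i s hi ih => rw [Finset.sum_insert hi, Finset.prod_insert hi, zpow_add₀ u.ne_zero, ih]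

theorem differentiable_prod_pow {ι : Type*} (s : Finset ι) (f : ι → (Fin n → ℂ) → ℂ)
    (b : ι → ℕ) (h : ∀ i, Differentiable ℂ (f i)) :
    Differentiable ℂ fun v => ∏ i ∈ s, f i v ^ b i := by
  classical
  induction s using Finset.induction_on with
  | empty => simp only [Finset.prod_empty]; exact differentiable_const _
  | insert i s hi ih =>
    simp only [Finset.prod_insert hi]
    exact ((h i).pow (b i)).mul ih

/-- The line bundle `K ^ a ⊗ D_0 ^ b_0 ⊗ ... ⊗ D_{N - 1} ^ b_{N - 1}`. -/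
noncomputable def LineBundle.adj {Γ : Subgroup (Trans n r)} (K : LineBundle Γ) {N : ℕ}
    (D : Fin N → LineBundle Γ) (a : ℕ) (b : Fin N → ℕ) : LineBundle Γ where
  deg := fun j => a * K.deg j + ∑ i, b i * (D i).deg j
  e := fun g v => K.e g v ^ a * ∏ i, (D i).e g v ^ b i
  holo := fun g hg => ((K.holo g hg).pow a).mul
    (differentiable_prod_pow Finset.univ _ b fun i => (D i).holo g hg)
  ne_zero := fun g hg v => mul_ne_zero (pow_ne_zero _ (K.ne_zero g hg v))
    (Finset.prod_ne_zero_iff.2 fun i _ => pow_ne_zero _ ((D i).ne_zero g hg v))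
  mul := fun g hg h hh v => by
    rw [K.mul g hg h hh, mul_pow]
    have h1 : ∏ i, (D i).e (g * h) v ^ b i
        = (∏ i, (D i).e g (onV h v) ^ b i) * ∏ i, (D i).e h v ^ b i := by
      rw [← Finset.prod_mul_distrib]
      exact Finset.prod_congr rfl fun i _ => by rw [(D i).mul g hg h hh, mul_pow]
    rw [h1]
    ring
  stab := fun g hg v z μ hz h1 h2 => by
    rw [K.stab g hg v z μ hz h1 h2]
    have h3 : ∀ i, (D i).e g v ^ b i = ∏ j, (μ j : ℂ) ^ (b i * (D i).deg j) := by
      intro i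
      rw [(D i).stab g hg v z μ hz h1 h2, ← Finset.prod_pow]
      refine Finset.prod_congr rfl fun j _ => ?_
      rw [mul_comm, zpow_mul, zpow_natCast]
    rw [Finset.prod_congr rfl fun i _ => h3 i, Finset.prod_comm, ← Finset.prod_pow,
      ← Finset.prod_mul_distrib]
    refine Finset.prod_congr rfl fun j _ => ?_
    rw [zpow_add₀ (μ j).ne_zero, zpow_sum_mul, mul_comm (a : ℤ), zpow_mul, zpow_natCast]
  perm := fun g hg π hπ j => by
    rw [K.perm g hg π hπ]
    congr 1
    exact Finset.sum_congr rfl fun i _ => by rw [(D i).perm g hg π hπ]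

/-- The classes of `H^{1,1}`: `(H, δ)` is the class `H + ∑ δ j ω_j`, `ω_j` the class of the Fubini-Study
metric of the `j`-th factor of `F`. -/
abbrev RealClass (n c : ℕ) : Type := ((Fin n → ℂ) → (Fin n → ℂ) → ℂ) × (Fin c → ℝ)

/-- The class `s c_1 (K) + ∑ d i c_1 (D_i)`, where `HK` and `HD i` are the forms of `K` and `D_i`. -/
noncomputable def realClass {Γ : Subgroup (Trans n r)} (K : LineBundle Γ)
    (HK : (Fin n → ℂ) → (Fin n → ℂ) → ℂ) {N : ℕ} (D : Fin N → LineBundle Γ)
    (HD : Fin N → (Fin n → ℂ) → (Fin n → ℂ) → ℂ) (s : ℝ) (d : Fin N → ℝ) : RealClass n c :=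
  (fun v w => s * HK v w + ∑ i, d i * HD i v w, fun j => s * K.deg j + ∑ i, d i * (D i).deg j)

/-- The class is nef: the form is positive semidefinite and the degrees are not negative. -/
def IsNefClass (x : RealClass n c) : Prop :=
  Pool.Agent.W594.SYZ2.IsNefForm x.1 ∧ ∀ j, 0 ≤ x.2 j

/-- The class is effective: it is a combination with nonnegative real coefficients of classes of line
bundles on `X` with nonzero sections. -/
def IsEffectiveClass (Γ : Subgroup (Trans n r)) (x : RealClass n c) : Prop :=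
  ∃ (ι : Type) (_ : Fintype ι) (t : ι → ℝ) (M : ι → LineBundle Γ)
    (HM : ι → (Fin n → ℂ) → (Fin n → ℂ) → ℂ),
    (∀ k, 0 ≤ t k) ∧ (∀ k, (M k).IsChernForm (HM k)) ∧
    (∀ k, ∃ s, (M k).IsSection 1 s ∧ ∃ v z, IsPt z ∧ s v z ≠ 0) ∧
    (∀ v w, x.1 v w = ∑ k, t k * HM k v w) ∧ ∀ j, x.2 j = ∑ k, t k * (M k).deg j

/-- The class is pseudo-effective: it is a limit of effective classes. -/
def IsPseudoEffectiveClass (Γ : Subgroup (Trans n r)) (x : RealClass n c) : Prop :=
  ∃ y : ℕ → RealClass n c, (∀ k, IsEffectiveClass Γ (y k)) ∧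
    (∀ v w, Filter.Tendsto (fun k => (y k).1 v w) Filter.atTop (nhds (x.1 v w))) ∧
    ∀ j, Filter.Tendsto (fun k => (y k).2 j) Filter.atTop (nhds (x.2 j))

/-- `s K + ∑ d i D_i` is semiample as a real divisor: it is a combination with positive real coefficients
of line bundles `K ^ a ⊗ D_0 ^ b_0 ⊗ ... `, `a ≥ 1`, which are semiample (some power is generated by its
global sections). -/
def IsSemiampleReal {Γ : Subgroup (Trans n r)} (K : LineBundle Γ) {N : ℕ}
    (D : Fin N → LineBundle Γ) (s : ℝ) (d : Fin N → ℝ) : Prop :=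
  ∃ (ι : Type) (_ : Fintype ι) (t : ι → ℝ) (a : ι → ℕ) (b : ι → Fin N → ℕ), (∀ k, 0 < t k) ∧
    (∀ k, 1 ≤ a k) ∧ ∑ k, t k * a k = s ∧ (∀ i, ∑ k, t k * b k i = d i) ∧
    ∀ k, (K.adj D (a k) (b k)).IsSemiample

end Pool.Agent.H896.IG
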